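import Pool.Agent.TH331.Cav.C10

set_option autoImplicit false
open MeasureTheory Set Filter Topology
open scoped ENNReal Pointwise

namespace Pool.Agent.TH331.Cav

/-- the sup norm -/
noncomputable def gQ (x : E3) : ℝ := ‖(WithLp.ofLp x : Fin 3 → ℝ)‖

theorem gQ_gau : Gau gQ where
  cont := (PiLp.continuous_ofLp 2 _).norm
  hom r x hr := by
    unfold gQ
    rw [WithLp.ofLp_smul, norm_smul, Real.norm_of_nonneg hr]
  pos x hx := by
    unfold gQ
    rw [norm_pos_iff]
    intro h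
    exact hx (ext0 fun k => by rw [h]; rfl)

theorem Qc_eq : Qc = {x | gQ x < 1} := by
  ext x
  change (∀ i, |x i| < 1) ↔ ‖(WithLp.ofLp x : Fin 3 → ℝ)‖ < 1
  rw [pi_norm_lt_iff one_pos]
  rfl

/-- the density vanishes inside the coincidence set -/
theorem zero_inside {R : ℝ} {η : E3 → ℝ} (hη : Nice R η) {c : ℝ} {O : Set E3} (hO : IsOpen O)
    (hc : ∀ x ∈ O, V η x = c) : volume (O ∩ {y | η y ≠ 0}) = 0 := by
  apply measure_null_of_locally_null
  rintro x ⟨hx, -⟩
  obtain ⟨ρ', hρ', hball⟩ := Metric.isOpen_iff.1 hO x hx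
  obtain ⟨ρ, hρdef⟩ : ∃ ρ : ℝ, ρ = ρ' / 2 := ⟨_, rfl⟩
  have hρ : 0 < ρ := by rw [hρdef]; positivity
  have h1 : Vt η ρ x = c := by
    rw [← V_sphere hη x hρ]
    have : ∀ ω : S2, V η (x + ρ • (ω : E3)) = c := by
      intro ω
      apply hc
      apply hball
      rw [Metric.mem_ball, dist_eq_norm, add_sub_cancel_left, norm_smul, Real.norm_of_nonneg hρ.le]
      have : ‖(ω : E3)‖ = 1 := by simp
      rw [this, mul_one, hρdef]
      linarith
    simp [this]
  have h2 : ∫ y, η y * (‖x - y‖⁻¹ - (max ‖x - y‖ ρ)⁻¹) = 0 := by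
    rw [← V_sub_Vt_eq hη hρ, h1, hc x hx, sub_self]
  have hne : ∀ᵐ y : E3, y ≠ x := by
    rw [ae_iff]
    simp
  have hint : Integrable (fun y => η y * (‖x - y‖⁻¹ - (max ‖x - y‖ ρ)⁻¹)) := by
    simp only [mul_sub]
    exact (hη.integrable x).sub (hη.integrable_t hρ x)
  have h3 : (fun y => η y * (‖x - y‖⁻¹ - (max ‖x - y‖ ρ)⁻¹)) =ᵐ[volume] 0 := by
    refine (integral_eq_zero_iff_of_nonneg_ae ?_ hint).1 h2
    filter_upwards [hne] with y hy
    exact mul_nonneg (hη.nonneg y) (ker_diff_nonneg _ (sub_ne_zero.2 (Ne.symm hy)))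
  refine ⟨Metric.ball x ρ ∩ {y | η y ≠ 0}, ?_, ?_⟩
  · exact mem_nhdsWithin.2 ⟨Metric.ball x ρ, Metric.isOpen_ball, Metric.mem_ball_self hρ,
      fun y hy => ⟨hy.1, hy.2.2⟩⟩
  · have : ∀ᵐ y : E3, y ∉ Metric.ball x ρ ∩ {y | η y ≠ 0} := by
      filter_upwards [h3, hne] with y hy hyne
      rintro ⟨g1, g2⟩
      simp only [Pi.zero_apply, mul_eq_zero] at hy
      rcases hy with hy | hy
      · exact g2 hy
      · rw [Metric.mem_ball, dist_comm, dist_eq_norm] at g1
        have hpos : 0 < ‖x - y‖ := norm_pos_iff.2 (sub_ne_zero.2 (Ne.symm hyne))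
        rw [max_eq_right g1.le] at hy
        have := inv_strictAnti₀ hpos g1
        linarith
    exact measure_eq_zero_iff_ae_notMem.2 this

theorem not_affine (f : E3 ≃ᵃ[ℝ] E3) : frontier Qc ≠ f '' Metric.sphere (0 : E3) 1 := by
  intro hf
  have hS : ∀ x : E3, gQ x = 1 → x ∈ frontier Qc := by
    intro x hx
    rw [Qc_eq, gQ_gau.frontier_eq]
    exact hx
  have hg : ∀ t : ℝ, |t| ≤ 1 → gQ (ee 0 + t • ee 1) = 1 := by
    intro t ht
    apply le_antisymm
    · unfold gQ
      rw [pi_norm_le_iff_of_nonneg zero_le_one]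
      intro k
      fin_cases k
      · simp [ee]
      · simpa [ee] using ht
      · simp [ee]
    · have := norm_le_pi_norm (WithLp.ofLp (ee 0 + t • ee 1) : Fin 3 → ℝ) 0
      have h2 : (WithLp.ofLp (ee 0 + t • ee 1) : Fin 3 → ℝ) 0 = 1 := by simp [ee]
      rw [h2] at this
      unfold gQ
      simpa using this
  have hpre : ∀ t : ℝ, |t| ≤ 1 → ‖f.symm (ee 0 + t • ee 1)‖ = 1 := by
    intro t ht
    have h1 := hS _ (hg t ht)
    rw [hf] at h1
    obtain ⟨y, hy, hy2⟩ := h1
    rw [← hy2, AffineEquiv.symm_apply_apply]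
    simpa using hy
  have hmid : f.symm (ee 0 + (0 : ℝ) • ee 1) =
      midpoint ℝ (f.symm (ee 0 + (-1 : ℝ) • ee 1)) (f.symm (ee 0 + (1 : ℝ) • ee 1)) := by
    rw [← AffineEquiv.map_midpoint]
    congr 1
    rw [midpoint_eq_smul_add, invOf_eq_inv]
    module
  have ha := hpre (-1) (by norm_num)
  have hb := hpre 1 (by norm_num)
  have hc := hpre 0 (by norm_num)
  rw [hmid, midpoint_eq_smul_add, norm_smul] at hc
  have hpar := parallelogram_law_with_norm ℝ (f.symm (ee 0 + (-1 : ℝ) • ee 1))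
    (f.symm (ee 0 + (1 : ℝ) • ee 1))
  rw [ha, hb] at hpar
  have h2 : ‖f.symm (ee 0 + (-1 : ℝ) • ee 1) + f.symm (ee 0 + (1 : ℝ) • ee 1)‖ = 2 := by
    have : ‖(⅟2 : ℝ)‖ = 1 / 2 := by norm_num
    rw [this] at hc
    linarith
  rw [h2] at hpar
  have h3 : ‖f.symm (ee 0 + (-1 : ℝ) • ee 1) - f.symm (ee 0 + (1 : ℝ) • ee 1)‖ = 0 := by
    have := norm_nonneg (f.symm (ee 0 + (-1 : ℝ) • ee 1) - f.symm (ee 0 + (1 : ℝ) • ee 1))
    nlinarith
  rw [norm_eq_zero, sub_eq_zero] at h3
  have h4 := f.symm.injective h3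
  have h5 : ((ee 0 + (-1 : ℝ) • ee 1 : E3)) 1 = ((ee 0 + (1 : ℝ) • ee 1 : E3)) 1 := by rw [h4]
  simp [ee] at h5
  norm_num at h5

theorem main :
    ∃ (U T₁ : Set E3),
    Nonempty (frontier U ≃ₜ Metric.sphere (0 : E3) 1) ∧
    Nonempty (frontier T₁ ≃ₜ Metric.sphere (0 : E3) 1) ∧
    IsOpen U ∧ IsConnected U ∧ Bornology.IsBounded U ∧
    IsOpen T₁ ∧ IsConnected T₁ ∧ Bornology.IsBounded T₁ ∧
    closure T₁ ⊆ U ∧
    (∃ c : ℝ, ∀ P ∈ T₁, ∫ M in U \ closure T₁, (dist P M)⁻¹ = c) ∧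
    (∀ f : E3 ≃ᵃ[ℝ] E3, frontier U ≠ f '' Metric.sphere (0 : E3) 1) := by
  obtain ⟨i0, hi0⟩ := Finite.exists_max (fun i : Fin 3 => V qq (ee i))
  obtain ⟨c, hc⟩ : ∃ c : ℝ, c = (V qq (ee i0) + V qq 0) / 2 := ⟨_, rfl⟩
  have hlt := V_ee_lt i0
  have hge := V_nonneg qq_adm.nice (ee i0)
  have hc0 : 0 ≤ c := by rw [hc]; linarith
  have hc1 : V qq (ee i0) < c := by rw [hc]; linarith
  have hc2 : c < V qq 0 := by rw [hc]; linarith
  obtain ⟨η, hadm, hh1, hh2⟩ := exists_obst (R := 2) c Qc_open.measurableSet Qc_sub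
  have hO : Obs c Qc η := ⟨hadm, hc0, hh1, hh2⟩
  have hVc := V_cont hadm.nice
  obtain ⟨T, hT⟩ : ∃ T : Set E3, T = {x | V η x = c} := ⟨_, rfl⟩
  have hTclosed : IsClosed T := by
    rw [hT]; exact isClosed_eq hVc continuous_const
  have hle : ∀ y, η y ≤ qq y := by
    intro y
    by_cases hy : y ∈ Qc
    · unfold qq
      rw [indicator_of_mem hy]
      exact hadm.nice.le_one y
    · rw [hadm.off y hy]
      exact qq_adm.nice.nonneg y
  have hTQ : T ⊆ Qc := by
    intro x hx
    by_contra hxQ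
    have h1 : ∃ i, 1 ≤ |x i| := by
      by_contra hno
      push Not at hno
      exact hxQ hno
    obtain ⟨i, hi⟩ := h1
    have h2 : V η x ≤ V qq x := V_mono hadm.nice qq_adm.nice (Eventually.of_forall hle) x
    have h3 : V qq x ≤ V qq (ee i) := qq_obs.mono fun k => by
      by_cases hk : k = i
      · rw [hk]
        simpa [ee] using hi
      · have : (ee i) k = 0 := by simp [ee, hk]
        rw [this, abs_zero]
        exact abs_nonneg _
    have h4 := hi0 i
    rw [hT] at hx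
    have h5 : V η x = c := hx
    linarith
  have hx0 : ∃ x ∈ T, x ≠ 0 := by
    by_contra hno
    push Not at hno
    have h1 : η =ᵐ[volume] qq := by
      have hne : ∀ᵐ y : E3, y ≠ 0 := by
        rw [ae_iff]
        simp
      filter_upwards [hh1, hne] with y hy hy0
      by_cases hyQ : y ∈ Qc
      · have h3 : V η y ≠ c := fun h => hy0 (hno y (by rw [hT]; exact h))
        rw [hy hyQ (lt_of_le_of_ne (hO.le y) h3)]
        unfold qq
        rw [indicator_of_mem hyQ]
      · rw [hadm.off y hyQ, qq_adm.off y hyQ]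
    have h2 := V_congr h1 0
    have h3 := hO.le 0
    linarith
  obtain ⟨x0, hx0T, hx0⟩ := hx0
  have hx0T' : V η x0 = c := by rw [hT] at hx0T; exact hx0T
  have h0int : (0 : E3) ∈ interior T := by
    have := hO.star hx0 hx0T' (le_refl 0) zero_lt_one
    rw [zero_smul] at this
    rw [hT]
    exact this
  have hTb : Bornology.IsBounded T := Metric.isBounded_closedBall.subset (hTQ.trans Qc_sub)
  obtain ⟨g, hg, hg1, hg2⟩ := exists_gau (T := T) (mem_interior_iff_mem_nhds.1 h0int) hTclosed hTb (by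
    intro x hx t ht0 ht1
    by_cases hx0 : x = 0
    · rw [hx0, smul_zero]; exact h0int
    · have := hO.star hx0 (by rw [hT] at hx; exact hx) ht0 ht1
      rw [hT]
      exact this)
  have hcl : closure (interior T) = T := by
    rw [hg1, hg.closure_eq, ← hg2]
  refine ⟨Qc, interior T, ?_, ?_, Qc_open, ?_, ?_, isOpen_interior, ?_, hTb.subset interior_subset, ?_,
    ⟨c, ?_⟩, not_affine⟩
  · rw [Qc_eq, gQ_gau.frontier_eq]
    exact gQ_gau.homeo
  · rw [hg1, hg.frontier_eq]
    exact hg.homeo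
  · rw [Qc_eq]; exact gQ_gau.connected
  · exact Metric.isBounded_closedBall.subset Qc_sub
  · rw [hg1]; exact hg.connected
  · rw [hcl]; exact hTQ
  · intro P hP
    rw [hcl]
    have hPT : V η P = c := by
      have := interior_subset hP
      rw [hT] at this
      exact this
    rw [← hPT]
    have hmeas : MeasurableSet (Qc \ T) := Qc_open.measurableSet.diff hTclosed.measurableSet
    have hae : η =ᵐ[volume] (Qc \ T).indicator fun _ => (1 : ℝ) := by
      have hz := zero_inside hadm.nice (c := c) (O := interior T) isOpen_interior (fun x hx => by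
        have := interior_subset hx
        rw [hT] at this
        exact this)
      have hz2 : ∀ᵐ y : E3, y ∉ interior T ∩ {y | η y ≠ 0} :=
        measure_eq_zero_iff_ae_notMem.1 hz
      have hn2 : ∀ᵐ y : E3, y ∉ {x | g x = 1} := measure_eq_zero_iff_ae_notMem.1 hg.null
      filter_upwards [hh1, hz2, hn2] with y y1 y2 y3
      by_cases hyT : y ∈ T
      · rw [indicator_of_notMem (fun h => h.2 hyT)]
        have h1 : y ∈ interior T := by
          rw [hg2] at hyT
          rw [hg1]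
          exact lt_of_le_of_ne hyT y3
        by_contra hne
        exact y2 ⟨h1, hne⟩
      · by_cases hyQ : y ∈ Qc
        · have hm : y ∈ Qc \ T := ⟨hyQ, hyT⟩
          rw [indicator_of_mem hm]
          apply y1 hyQ
          exact lt_of_le_of_ne (hO.le y) (fun h => hyT (by rw [hT]; exact h))
        · rw [indicator_of_notMem (fun h => hyQ h.1), hadm.off y hyQ]
    rw [V_congr hae]
    unfold V
    rw [← integral_indicator hmeas]
    refine integral_congr_ae (Eventually.of_forall fun y => ?_)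
    simp only
    by_cases hy : y ∈ Qc \ T
    · rw [indicator_of_mem hy, indicator_of_mem hy, one_mul, dist_eq_norm]
    · rw [indicator_of_notMem hy, indicator_of_notMem hy, zero_mul]

end Pool.Agent.TH331.Cav
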