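import Pool.Agent.Helper88.SE.P_zlaw
import Pool.Agent.Helper88.SE.P_sg_prob

set_option autoImplicit false
open MeasureTheory Set Filter Topology
open scoped ENNReal

namespace Pool.Agent.TH331.Cav

/-- three dimensional Euclidean space -/
abbrev E3 := EuclideanSpace ℝ (Fin 3)

/-- unit sphere -/
abbrev S2 := Metric.sphere (0 : E3) 1

/-- normalised surface measure -/
noncomputable def sig : Measure S2 := Pool.Agent.Helper88.SE.sg 2

instance sig_prob : IsProbabilityMeasure sig := Pool.Agent.Helper88.SE.sg_prob 2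

theorem zlaw' (p : S2) (h : ℝ → ℝ≥0∞) (hh : Measurable h) :
    ∫⁻ x : S2, h (inner ℝ (p : E3) (x : E3)) ∂sig =
      ENNReal.ofReal (1 / 2) * ∫⁻ z in Icc (-1 : ℝ) 1, h z :=
  Pool.Agent.Helper88.SE.zlaw p h hh

theorem half_pos (p : S2) : sig {x : S2 | 0 < inner ℝ (p : E3) (x : E3)} ≠ 0 := by
  have h1 := zlaw' p ((Ioi (0 : ℝ)).indicator 1) (measurable_one.indicator measurableSet_Ioi)
  have hmeas : MeasurableSet {x : S2 | 0 < inner ℝ (p : E3) (x : E3)} := by
    apply measurableSet_lt measurable_const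
    apply Continuous.measurable
    fun_prop
  have h2 : ∫⁻ x : S2, (Ioi (0 : ℝ)).indicator 1 (inner ℝ (p : E3) (x : E3)) ∂sig =
      sig {x : S2 | 0 < inner ℝ (p : E3) (x : E3)} := by
    rw [← lintegral_indicator_one hmeas]
    refine lintegral_congr fun x => ?_
    simp only [indicator, mem_Ioi, Set.mem_ofPred_eq]
    rfl
  rw [h2] at h1
  rw [h1]
  have h3 : ∫⁻ z in Icc (-1 : ℝ) 1, (Ioi (0 : ℝ)).indicator 1 z = volume (Ioi (0 : ℝ) ∩ Icc (-1) 1) := by
    rw [← Measure.restrict_apply measurableSet_Ioi]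
    exact lintegral_indicator_one measurableSet_Ioi
  rw [h3]
  have h4 : Ioi (0 : ℝ) ∩ Icc (-1) 1 = Ioc 0 1 := by
    ext z
    simp only [mem_inter_iff, mem_Ioi, mem_Icc, mem_Ioc]
    constructor
    · rintro ⟨a, b, c⟩; exact ⟨a, c⟩
    · rintro ⟨a, b⟩; exact ⟨a, by linarith, b⟩
  rw [h4, Real.volume_Ioc]
  simp

theorem int_inv_sqrt {A B : ℝ} (hB : 0 < B) (hAB : B ≤ A) :
    ∫⁻ s in Icc (-1 : ℝ) 1, ENNReal.ofReal ((√(A - B * s))⁻¹) =
      ENNReal.ofReal (2 / B * (√(A + B) - √(A - B))) := by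
  have e0 : ∀ s : ℝ, s ∈ Icc (-1 : ℝ) 1 → (√(A - B * s))⁻¹ = (A - B * s) ^ (-(1 / 2) : ℝ) := by
    intro s hs
    have h1 : 0 ≤ A - B * s := by nlinarith [hs.2]
    rw [Real.rpow_neg h1, Real.sqrt_eq_rpow]
  have hr : (-1 : ℝ) < -(1 / 2) := by norm_num
  have hi : IntervalIntegrable (fun z : ℝ => (A - B * z) ^ (-(1 / 2) : ℝ)) volume (-1) 1 := by
    have h1 : IntervalIntegrable (fun x : ℝ => x ^ (-(1 / 2) : ℝ)) volume (A - B) (A + B) :=
      intervalIntegral.intervalIntegrable_rpow' hr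
    have h2 := (h1.comp_mul_left (c := B)).comp_sub_left (A / B)
    have e : (fun x : ℝ => (B * (A / B - x)) ^ (-(1 / 2) : ℝ)) =
        fun z : ℝ => (A - B * z) ^ (-(1 / 2) : ℝ) := by
      funext x
      congr 1
      field_simp
    rw [e] at h2
    have e1 : A / B - (A - B) / B = 1 := by field_simp; ring
    have e2 : A / B - (A + B) / B = -1 := by field_simp; ring
    rw [e1, e2] at h2
    exact h2.symm
  have hi2 : IntegrableOn (fun z : ℝ => (A - B * z) ^ (-(1 / 2) : ℝ)) (Icc (-1 : ℝ) 1) volume := by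
    rw [integrableOn_Icc_iff_integrableOn_Ioc]
    exact (intervalIntegrable_iff_integrableOn_Ioc_of_le (by norm_num)).mp hi
  rw [setLIntegral_congr_fun measurableSet_Icc (fun s hs => by rw [e0 s hs]),
    ← ofReal_integral_eq_lintegral_ofReal hi2]
  · congr 1
    rw [integral_Icc_eq_integral_Ioc, ← intervalIntegral.integral_of_le (by norm_num),
      intervalIntegral.integral_comp_sub_mul (fun u : ℝ => u ^ (-(1 / 2) : ℝ)) hB.ne' A,
      integral_rpow (Or.inl hr)]
    have e1 : A - B * 1 = A - B := by ring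
    have e2 : A - B * (-1) = A + B := by ring
    have e3 : (-(1 / 2) : ℝ) + 1 = 1 / 2 := by norm_num
    rw [e1, e2, e3, ← Real.sqrt_eq_rpow, ← Real.sqrt_eq_rpow, smul_eq_mul]
    field_simp
  · filter_upwards [ae_restrict_mem measurableSet_Icc] with z hz
    apply Real.rpow_nonneg
    nlinarith [hz.2]

/-- Newton's theorem for the uniform sphere -/
theorem newton_sphere (z : E3) {ρ : ℝ} (hρ : 0 < ρ) :
    ∫⁻ ω : S2, ENNReal.ofReal (‖ρ • (ω : E3) - z‖⁻¹) ∂sig = ENNReal.ofReal ((max ‖z‖ ρ)⁻¹) := by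
  by_cases hz : z = 0
  · have h1 : ∀ ω : S2, ‖ρ • (ω : E3) - z‖⁻¹ = ρ⁻¹ := by
      intro ω
      rw [hz, sub_zero, norm_smul, Real.norm_eq_abs, abs_of_pos hρ]
      simp
    simp only [h1]
    rw [lintegral_const, measure_univ, mul_one, hz, norm_zero, max_eq_right hρ.le]
  · have hR : 0 < ‖z‖ := norm_pos_iff.2 hz
    obtain ⟨R, hRdef⟩ : ∃ R : ℝ, R = ‖z‖ := ⟨_, rfl⟩
    rw [← hRdef] at hR ⊢
    let p : S2 := ⟨R⁻¹ • z, by
      rw [mem_sphere_zero_iff_norm, norm_smul, norm_inv, Real.norm_eq_abs, abs_of_pos hR, ← hRdef]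
      field_simp⟩
    have hp : (p : E3) = R⁻¹ • z := rfl
    have h1 : ∀ ω : S2, ‖ρ • (ω : E3) - z‖⁻¹ =
        (√((ρ ^ 2 + R ^ 2) - (2 * ρ * R) * inner ℝ (p : E3) (ω : E3)))⁻¹ := by
      intro ω
      have hω : ‖(ω : E3)‖ = 1 := by simp
      have h2 : ‖ρ • (ω : E3) - z‖ ^ 2 =
          (ρ ^ 2 + R ^ 2) - (2 * ρ * R) * inner ℝ (p : E3) (ω : E3) := by
        rw [norm_sub_sq_real, norm_smul, hω, hp, inner_smul_left, inner_smul_left,
          real_inner_comm z (ω : E3), ← hRdef, Real.norm_eq_abs, mul_one, sq_abs]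
        simp only [conj_trivial]
        field_simp
        ring
      rw [← h2, Real.sqrt_sq (norm_nonneg _)]
    simp only [h1]
    have hm : Measurable (fun s : ℝ => ENNReal.ofReal ((√((ρ ^ 2 + R ^ 2) - (2 * ρ * R) * s))⁻¹)) := by
      apply ENNReal.measurable_ofReal.comp
      apply Measurable.inv
      apply Continuous.measurable
      fun_prop
    rw [zlaw' p _ hm, int_inv_sqrt (by positivity) (by nlinarith [sq_nonneg (ρ - R)]),
      ← ENNReal.ofReal_mul (by norm_num)]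
    congr 1
    have e1 : ρ ^ 2 + R ^ 2 + 2 * ρ * R = (ρ + R) ^ 2 := by ring
    have e2 : ρ ^ 2 + R ^ 2 - 2 * ρ * R = (ρ - R) ^ 2 := by ring
    rw [e1, e2, Real.sqrt_sq (by positivity), Real.sqrt_sq_eq_abs]
    rcases le_total ρ R with h | h
    · rw [max_eq_left h, abs_of_nonpos (by linarith)]
      field_simp
      ring
    · rw [max_eq_right h, abs_of_nonneg (by linarith)]
      field_simp
      ring

end Pool.Agent.TH331.Cav
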