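import Pool.Agent.TH331.Cav.C9

set_option autoImplicit false
open MeasureTheory Set Filter Topology
open scoped ENNReal Pointwise

namespace Pool.Agent.TH331.Cav

theorem ext0 {x : E3} (h : ∀ k, x k = 0) : x = 0 := by
  ext k
  rw [h k]
  rfl

/-- make the j-th coordinate nonzero -/
theorem Obs.step {c : ℝ} {η : E3 → ℝ} (h : Obs c Qc η) {x : E3} (hx : x ≠ 0) (hxT : V η x = c)
    {μ : ℝ} (hμ0 : 0 < μ) (hμ1 : μ < 1) (j : Fin 3) :
    ∃ y : E3, y ≠ 0 ∧ V η y = c ∧ y j ≠ 0 ∧ ∀ k, μ * |x k| ≤ |y k| := by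
  by_cases hj : x j = 0
  swap
  · exact ⟨x, hx, hxT, hj, fun k => by
      have := abs_nonneg (x k)
      nlinarith⟩
  obtain ⟨i, hi⟩ : ∃ i, x i ≠ 0 := by
    by_contra hno
    push Not at hno
    exact hx (ext0 hno)
  have hij : i ≠ j := by
    rintro rfl
    exact hi hj
  obtain ⟨x', hx'⟩ : ∃ x' : E3, ∀ k, x' k = |x k| := ⟨WithLp.toLp 2 (fun k => |x k|), fun k => rfl⟩
  have h1 : V η x ≤ V η x' := h.mono fun k => by rw [hx', abs_abs]
  have hxi : 0 < |x i| := abs_pos.2 hi
  have h2 := h.mix x' hij (s := (1 - μ) * |x i|) (mul_pos (by linarith) hxi) (by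
    rw [hx', hx', hj, abs_zero]
    nlinarith)
  obtain ⟨y, hy⟩ : ∃ y : E3, y = up (up x' i (x' i - (1 - μ) * |x i|)) j (x' j + (1 - μ) * |x i|) :=
    ⟨_, rfl⟩
  rw [← hy] at h2
  have hyj : y j = (1 - μ) * |x i| := by
    rw [hy, up_self, hx', hj, abs_zero, zero_add]
  have hyj' : y j ≠ 0 := by
    rw [hyj]
    have : 0 < (1 - μ) * |x i| := mul_pos (by linarith) hxi
    exact this.ne'
  refine ⟨y, fun h0 => hyj' (by rw [h0]; rfl), le_antisymm (h.le _) (by linarith), hyj', fun k => ?_⟩
  by_cases hkj : k = j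
  · rw [hkj, hj, abs_zero, mul_zero]
    exact abs_nonneg _
  · by_cases hki : k = i
    · have : y i = μ * |x i| := by
        rw [hy, up_ne _ _ hij, up_self, hx']
        ring
      rw [hki, this, abs_of_nonneg (mul_nonneg hμ0.le (abs_nonneg _))]
    · have : y k = |x k| := by
        rw [hy, up_ne _ _ hkj, up_ne _ _ hki, hx']
      rw [this, abs_abs]
      have := abs_nonneg (x k)
      nlinarith

theorem Obs.star {c : ℝ} {η : E3 → ℝ} (h : Obs c Qc η) {x : E3} (hx : x ≠ 0) (hxT : V η x = c)
    {t : ℝ} (ht0 : 0 ≤ t) (ht1 : t < 1) : t • x ∈ interior {z | V η z = c} := by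
  obtain ⟨μ, hμ⟩ : ∃ μ : ℝ, μ = 1 - (1 - t) / 4 := ⟨_, rfl⟩
  have hμ0 : 0 < μ := by rw [hμ]; linarith
  have hμ1 : μ < 1 := by rw [hμ]; linarith
  have hμ3 : t < μ ^ 3 := by
    have : μ ^ 3 = 1 - 3 * ((1 - t) / 4) + 3 * ((1 - t) / 4) ^ 2 - ((1 - t) / 4) ^ 3 := by
      rw [hμ]; ring
    rw [this]
    have hd0 : 0 < (1 - t) / 4 := by linarith
    have hd1 : (1 - t) / 4 ≤ 1 / 4 := by linarith
    nlinarith [sq_nonneg ((1 - t) / 4), mul_nonneg hd0.le hd0.le,
      mul_nonneg (mul_nonneg hd0.le hd0.le) (sub_nonneg.2 hd1)]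
  obtain ⟨y1, a1, b1, c1, d1⟩ := h.step hx hxT hμ0 hμ1 0
  obtain ⟨y2, a2, b2, c2, d2⟩ := h.step a1 b1 hμ0 hμ1 1
  obtain ⟨y3, a3, b3, c3, d3⟩ := h.step a2 b2 hμ0 hμ1 2
  have hall : ∀ k, y3 k ≠ 0 := by
    intro k
    have e : ∀ k, y2 k ≠ 0 → y3 k ≠ 0 := fun k hk h0 => by
      have := d3 k
      rw [h0, abs_zero] at this
      have h2 : 0 < μ * |y2 k| := mul_pos hμ0 (abs_pos.2 hk)
      linarith
    have e' : ∀ k, y1 k ≠ 0 → y2 k ≠ 0 := fun k hk h0 => by
      have := d2 k
      rw [h0, abs_zero] at this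
      have h2 : 0 < μ * |y1 k| := mul_pos hμ0 (abs_pos.2 hk)
      linarith
    fin_cases k
    · exact e 0 (e' 0 c1)
    · exact e 1 c2
    · exact c3
  have hlt : ∀ k, t * |x k| < |y3 k| := by
    intro k
    have h1 := d1 k
    have h2 := mul_le_mul_of_nonneg_left (d2 k) hμ0.le
    have h3 := d3 k
    have h4 := abs_pos.2 (hall k)
    by_cases hk : x k = 0
    · rw [hk, abs_zero, mul_zero]; exact h4
    · have h5 := abs_pos.2 hk
      have h6 := mul_le_mul_of_nonneg_left h1 (show 0 ≤ μ * μ by positivity)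
      have h7 : t * |x k| < μ ^ 3 * |x k| := mul_lt_mul_of_pos_right hμ3 h5
      have h8 := mul_le_mul_of_nonneg_left h2 (le_refl 0)
      nlinarith
  have hopen : IsOpen {z : E3 | ∀ k, |z k| < |y3 k|} := by
    have : {z : E3 | ∀ k, |z k| < |y3 k|} = ⋂ k, {z : E3 | |z k| < |y3 k|} := by
      ext z; simp
    rw [this]
    exact isOpen_iInter_of_finite fun k => isOpen_lt (by fun_prop) continuous_const
  refine mem_interior.2 ⟨_, ?_, hopen, fun k => ?_⟩
  · intro z hz
    have h1 := h.mono (x := y3) (y := z) fun k => (hz k).le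
    exact le_antisymm (h.le z) (by linarith)
  · have : (t • x) k = t * x k := by simp
    rw [this, abs_mul, abs_of_nonneg ht0]
    exact hlt k

theorem Qc_open : IsOpen Qc := by
  have : Qc = ⋂ k, {z : E3 | |z k| < 1} := by
    ext z; simp [Qc]
  rw [this]
  exact isOpen_iInter_of_finite fun k => isOpen_lt (by fun_prop) continuous_const

theorem Qc_sub : Qc ⊆ Metric.closedBall 0 2 := by
  intro x hx
  rw [mem_closedBall_zero_iff, EuclideanSpace.norm_eq, Real.sqrt_le_left (by norm_num)]
  have h : ∀ k, ‖x k‖ ^ 2 ≤ 1 := by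
    intro k
    have h1 := hx k
    rw [Real.norm_eq_abs]
    have := abs_nonneg (x k)
    nlinarith
  have h3 := Finset.sum_le_sum (fun k (_ : k ∈ Finset.univ) => h k)
  rw [Finset.sum_const, Finset.card_univ, Fintype.card_fin] at h3
  norm_num at h3 ⊢
  linarith

/-- indicator of the cube -/
noncomputable def qq : E3 → ℝ := Qc.indicator fun _ => 1

theorem qq_adm : Adm 2 Qc qq where
  nice :=
    { meas := measurable_const.indicator Qc_open.measurableSet
      nonneg := fun y => indicator_nonneg (fun _ _ => zero_le_one) y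
      le_one := fun y => indicator_le' (fun _ _ => le_refl _) (fun _ _ => zero_le_one) y
      supp := fun y hy => indicator_of_notMem (fun h => by
        have := Qc_sub h
        rw [mem_closedBall_zero_iff] at this
        linarith) _ }
  off := fun y hy => indicator_of_notMem hy _

theorem MM_nonneg {R : ℝ} : 0 ≤ MM R := by
  have hz : Nice R (fun _ : E3 => (0 : ℝ)) :=
    ⟨measurable_const, fun _ => le_refl _, fun _ => zero_le_one, fun _ _ => rfl⟩
  exact (V_nonneg hz 0).trans (V_le_MM hz 0)

theorem qq_obs : Obs (MM 2 + 1) Qc qq where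
  adm := qq_adm
  cpos := by
    have := MM_nonneg (R := 2)
    linarith
  h1 := Eventually.of_forall fun y hy _ => indicator_of_mem hy _
  h2 := Eventually.of_forall fun y _ hlt => by
    have := V_le_MM qq_adm.nice y
    linarith

theorem V_ee_lt (i : Fin 3) : V qq (ee i) < V qq 0 := by
  obtain ⟨f, hf⟩ : ∃ f : E3 → ℝ, f = fun y => qq y * ‖(0 : E3) - y‖⁻¹ - qq y * ‖ee i - y‖⁻¹ := ⟨_, rfl⟩
  have hq := qq_adm.nice
  have hfi : Integrable f := by
    rw [hf]
    exact (hq.integrable 0).sub (hq.integrable (ee i))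
  have h1 : V qq 0 - V qq (ee i) = ∫ y, f y := by
    rw [hf]
    unfold V
    exact (integral_sub (hq.integrable 0) (hq.integrable (ee i))).symm
  have hP : MeasurableSet {y : E3 | 0 < y i} := (isOpen_lt continuous_const (by fun_prop)).measurableSet
  have h2 : ∫ y, f y = (∫ y in {y : E3 | 0 < y i}, f y) + ∫ y in {y : E3 | 0 < y i}ᶜ, f y :=
    (integral_add_compl hP hfi).symm
  -- the reflection
  have hrf : ∀ y : E3, rf (ee i) (1 / 2) y = up y i (1 - y i) := by
    intro y
    unfold rf up
    rw [ee_inner, ee_norm]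
    module
  have hv : ee i ≠ 0 := by
    rw [← norm_ne_zero_iff, ee_norm]
    norm_num
  have hrf0 : rf (ee i) (1 / 2) 0 = ee i := by
    rw [hrf]
    unfold up
    simp
  have hrfe : rf (ee i) (1 / 2) (ee i) = 0 := by
    have := rf_rf hv (1 / 2) 0
    rw [hrf0] at this
    exact this
  have h3 : ∫ y in {y : E3 | 0 < y i}, f y = 0 := by
    obtain ⟨g, hg⟩ : ∃ g : E3 → ℝ, g = {y : E3 | 0 < y i}.indicator f := ⟨_, rfl⟩
    have hodd : ∀ y, g (rf (ee i) (1 / 2) y) = -g y := by
      intro y
      have hmem : (rf (ee i) (1 / 2) y ∈ {y : E3 | 0 < y i} ∩ Qc) ↔ (y ∈ {y : E3 | 0 < y i} ∩ Qc) := by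
        rw [hrf]
        constructor
        · rintro ⟨g1, g2⟩
          have g1' : 0 < (up y i (1 - y i)) i := g1
          rw [up_self] at g1'
          have g3 := g2 i
          rw [up_self, abs_lt] at g3
          refine ⟨by change 0 < y i; linarith [g3.2], fun k => ?_⟩
          by_cases hk : k = i
          · rw [hk, abs_lt]
            constructor <;> linarith [g3.2]
          · have := g2 k
            rwa [up_ne _ _ hk] at this
        · rintro ⟨g1, g2⟩
          have g1' : 0 < y i := g1
          have g3 := abs_lt.1 (g2 i)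
          refine ⟨by change 0 < (up y i (1 - y i)) i; rw [up_self]; linarith [g3.2], fun k => ?_⟩
          by_cases hk : k = i
          · rw [hk, up_self, abs_lt]
            constructor <;> linarith [g3.2]
          · rw [up_ne _ _ hk]
            exact g2 k
      have hgform : ∀ y, g y = ({y : E3 | 0 < y i} ∩ Qc).indicator
          (fun y => ‖(0 : E3) - y‖⁻¹ - ‖ee i - y‖⁻¹) y := by
        intro y
        rw [hg]
        by_cases g1 : y ∈ {y : E3 | 0 < y i}
        · rw [indicator_of_mem g1]
          by_cases g2 : y ∈ Qc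
          · have g12 : y ∈ {y : E3 | 0 < y i} ∩ Qc := ⟨g1, g2⟩
            rw [indicator_of_mem g12, hf]
            simp only
            unfold qq
            rw [indicator_of_mem g2]
            ring
          · rw [indicator_of_notMem (fun h => g2 h.2), hf]
            simp only
            unfold qq
            rw [indicator_of_notMem g2]
            ring
        · rw [indicator_of_notMem g1, indicator_of_notMem (fun h => g1 h.1)]
      rw [hgform, hgform]
      by_cases g1 : y ∈ {y : E3 | 0 < y i} ∩ Qc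
      · rw [indicator_of_mem g1, indicator_of_mem (hmem.2 g1)]
        have e1 : ‖(0 : E3) - rf (ee i) (1 / 2) y‖ = ‖ee i - y‖ := by
          nth_rewrite 1 [← hrfe]
          rw [rf_norm_sub]
        have e2 : ‖ee i - rf (ee i) (1 / 2) y‖ = ‖(0 : E3) - y‖ := by
          nth_rewrite 1 [← hrf0]
          rw [rf_norm_sub]
        rw [e1, e2]
        ring
      · rw [indicator_of_notMem g1, indicator_of_notMem (fun h => g1 (hmem.1 h)), neg_zero]
    have e3 := (rf_mp (ee i) (1 / 2)).integral_comp (rf_me hv (1 / 2)) g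
    simp only [hodd] at e3
    rw [integral_neg] at e3
    have e4 : ∫ y, g y = 0 := by linarith
    rw [hg, integral_indicator hP] at e4
    exact e4
  have h4 : 0 < ∫ y in {y : E3 | 0 < y i}ᶜ, f y := by
    rw [integral_pos_iff_support_of_nonneg_ae]
    · have hsub : {y : E3 | y i < 0} ∩ Qc ⊆ Function.support f ∩ {y : E3 | 0 < y i}ᶜ := by
        rintro y ⟨g1, g2⟩
        have g1' : y i < 0 := g1
        refine ⟨?_, fun h => by
          have : 0 < y i := h
          linarith⟩
        rw [Function.mem_support, hf]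
        simp only
        unfold qq
        rw [indicator_of_mem g2, one_mul, one_mul, zero_sub, norm_neg]
        have hy0 : 0 < ‖y‖ := by
          rw [norm_pos_iff]
          rintro rfl
          simp at g1'
        have hlt : ‖y‖ < ‖ee i - y‖ := by
          apply lt_of_pow_lt_pow_left₀ 2 (norm_nonneg _)
          rw [norm_sub_sq_real, ee_norm, ee_inner]
          nlinarith
        have := inv_strictAnti₀ hy0 hlt
        linarith
      have hopen : IsOpen ({y : E3 | y i < 0} ∩ Qc) :=
        (isOpen_lt (by fun_prop) continuous_const).inter Qc_open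
      have hne : ({y : E3 | y i < 0} ∩ Qc).Nonempty := by
        refine ⟨(-(1 / 2) : ℝ) • ee i, ?_, fun k => ?_⟩
        · change ((-(1 / 2) : ℝ) • ee i) i < 0
          simp [ee]
        · by_cases hk : k = i
          · rw [hk]
            simp [ee]
            norm_num
          · simp [ee, hk]
      rw [Measure.restrict_apply' hP.compl]
      exact lt_of_lt_of_le (hopen.measure_pos volume hne) (measure_mono hsub)
    · have hne : ∀ᵐ y : E3, y ≠ 0 := by
        rw [ae_iff]
        simp
      filter_upwards [ae_restrict_mem hP.compl, ae_restrict_of_ae hne] with y hy hy0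
      have hy' : y i ≤ 0 := not_lt.1 hy
      rw [hf]
      simp only [Pi.zero_apply]
      unfold qq
      by_cases g2 : y ∈ Qc
      · rw [indicator_of_mem g2, one_mul, one_mul, zero_sub, norm_neg]
        have hy0' : 0 < ‖y‖ := norm_pos_iff.2 hy0
        have hlt : ‖y‖ < ‖ee i - y‖ := by
          apply lt_of_pow_lt_pow_left₀ 2 (norm_nonneg _)
          rw [norm_sub_sq_real, ee_norm, ee_inner]
          nlinarith
        have := inv_strictAnti₀ hy0' hlt
        linarith
      · rw [indicator_of_notMem g2]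
        simp
    · exact hfi.integrableOn
  linarith

end Pool.Agent.TH331.Cav
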