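import Pool.Agent.TH331.Cav.C1

set_option autoImplicit false
open MeasureTheory Set Filter Topology
open scoped ENNReal

namespace Pool.Agent.TH331.Cav

/-- densities with values in `[0,1]` and bounded support -/
structure Nice (R : ℝ) (a : E3 → ℝ) : Prop where
  meas : Measurable a
  nonneg : ∀ y, 0 ≤ a y
  le_one : ∀ y, a y ≤ 1
  supp : ∀ y, R < ‖y‖ → a y = 0

/-- Newtonian potential -/
noncomputable def V (a : E3 → ℝ) (x : E3) : ℝ := ∫ y, a y * ‖x - y‖⁻¹

/-- truncated potential -/
noncomputable def Vt (a : E3 → ℝ) (δ : ℝ) (x : E3) : ℝ := ∫ y, a y * (max ‖x - y‖ δ)⁻¹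

theorem kint (r : ℝ) : IntegrableOn (fun z : E3 => ‖z‖⁻¹) (Metric.ball (0 : E3) r) := by
  have hfr : Module.finrank ℝ E3 = 3 := by simp
  refine integrableOn_ball_of_norm_le_rpow (C := 1) (α := 1) (by rw [hfr]; norm_num)
    (by rw [hfr]; norm_num) ?_ ?_
  · refine Filter.Eventually.of_forall fun x => ?_
    rw [one_mul, Real.rpow_neg (norm_nonneg _), Real.rpow_one, Real.norm_of_nonneg (by positivity)]
  · exact (measurable_norm.inv).aestronglyMeasurable

theorem kint_shift (x : E3) (r : ℝ) :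
    Integrable (fun y : E3 => (Metric.ball (0 : E3) r).indicator (fun z => ‖z‖⁻¹) (x - y)) := by
  have h := (integrable_indicator_iff Metric.isOpen_ball.measurableSet).2 (kint r)
  exact h.comp_sub_left x

theorem Nice.integrable_self {R : ℝ} {a : E3 → ℝ} (ha : Nice R a) : Integrable a := by
  have h1 : Integrable ((Metric.closedBall (0 : E3) R).indicator (fun _ => (1 : ℝ))) := by
    rw [integrable_indicator_iff Metric.isClosed_closedBall.measurableSet]
    exact integrableOn_const (hs := (Metric.isBounded_closedBall.measure_lt_top).ne)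
  refine h1.mono' ha.meas.aestronglyMeasurable (Eventually.of_forall fun y => ?_)
  rw [Real.norm_of_nonneg (ha.nonneg y)]
  by_cases hy : y ∈ Metric.closedBall (0 : E3) R
  · rw [indicator_of_mem hy]
    exact ha.le_one y
  · rw [indicator_of_notMem hy]
    have : R < ‖y‖ := by
      rw [mem_closedBall_zero_iff] at hy
      linarith [not_le.1 hy]
    rw [ha.supp y this]

theorem meas_k (x : E3) : Measurable (fun y : E3 => ‖x - y‖⁻¹) :=
  (measurable_norm.comp (measurable_const.sub measurable_id)).inv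

theorem Nice.integrable {R : ℝ} {a : E3 → ℝ} (ha : Nice R a) (x : E3) :
    Integrable (fun y => a y * ‖x - y‖⁻¹) := by
  refine ((kint_shift x 1).add ha.integrable_self).mono'
    (ha.meas.mul (meas_k x)).aestronglyMeasurable (Eventually.of_forall fun y => ?_)
  have h0 := ha.nonneg y
  have h1 := ha.le_one y
  rw [Real.norm_of_nonneg (by positivity)]
  simp only [Pi.add_apply]
  by_cases hy : (x - y) ∈ Metric.ball (0 : E3) 1
  · rw [indicator_of_mem hy]
    have : 0 ≤ ‖x - y‖⁻¹ := by positivity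
    nlinarith
  · rw [indicator_of_notMem hy, zero_add]
    have : 1 ≤ ‖x - y‖ := by
      rw [mem_ball_zero_iff] at hy
      linarith [not_lt.1 hy]
    have h2 : ‖x - y‖⁻¹ ≤ 1 := inv_le_one_of_one_le₀ this
    nlinarith

theorem Nice.integrable_t {R : ℝ} {a : E3 → ℝ} (ha : Nice R a) {δ : ℝ} (hδ : 0 < δ) (x : E3) :
    Integrable (fun y => a y * (max ‖x - y‖ δ)⁻¹) := by
  refine (ha.integrable_self.mul_const δ⁻¹).mono'
    (ha.meas.mul (((measurable_norm.comp (measurable_const.sub measurable_id)).max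
      measurable_const).inv)).aestronglyMeasurable (Eventually.of_forall fun y => ?_)
  have h0 := ha.nonneg y
  have h3 : 0 < max ‖x - y‖ δ := lt_max_of_lt_right hδ
  rw [Real.norm_of_nonneg (by positivity)]
  have h2 : (max ‖x - y‖ δ)⁻¹ ≤ δ⁻¹ := inv_anti₀ hδ (le_max_right _ _)
  exact mul_le_mul_of_nonneg_left h2 h0

theorem V_nonneg {R : ℝ} {a : E3 → ℝ} (ha : Nice R a) (x : E3) : 0 ≤ V a x := by
  unfold V
  apply integral_nonneg
  intro y
  have h0 := ha.nonneg y
  simp only [Pi.zero_apply]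
  positivity

theorem V_mono {R R' : ℝ} {a b : E3 → ℝ} (ha : Nice R a) (hb : Nice R' b) (hab : ∀ᵐ y, a y ≤ b y)
    (x : E3) : V a x ≤ V b x := by
  unfold V
  refine integral_mono_ae (ha.integrable x) (hb.integrable x) ?_
  filter_upwards [hab] with y hy
  have : 0 ≤ ‖x - y‖⁻¹ := by positivity
  exact mul_le_mul_of_nonneg_right hy this

theorem V_congr {a b : E3 → ℝ} (hab : a =ᵐ[volume] b) (x : E3) : V a x = V b x := by
  unfold V
  apply integral_congr_ae
  filter_upwards [hab] with y hy
  rw [hy]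

theorem Vt_cont {R : ℝ} {a : E3 → ℝ} (ha : Nice R a) {δ : ℝ} (hδ : 0 < δ) :
    Continuous (Vt a δ) := by
  unfold Vt
  refine continuous_of_dominated (bound := fun y => a y * δ⁻¹) ?_ ?_
    (ha.integrable_self.mul_const δ⁻¹) ?_
  · intro x
    exact (ha.integrable_t hδ x).1
  · intro x
    refine Eventually.of_forall fun y => ?_
    have h0 := ha.nonneg y
    have h3 : 0 < max ‖x - y‖ δ := lt_max_of_lt_right hδ
    rw [Real.norm_of_nonneg (by positivity)]
    exact mul_le_mul_of_nonneg_left (inv_anti₀ hδ (le_max_right _ _)) h0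
  · refine Eventually.of_forall fun y => ?_
    refine continuous_const.mul (Continuous.inv₀ (by fun_prop) fun x => ?_)
    exact (lt_max_of_lt_right hδ).ne'

/-- tail bound -/
noncomputable def Itail (δ : ℝ) : ℝ := ∫ z in Metric.ball (0 : E3) δ, ‖z‖⁻¹

theorem Itail_tendsto : Tendsto (fun n : ℕ => Itail (1 / ((n : ℝ) + 1))) atTop (𝓝 0) := by
  have h1 := tendsto_setIntegral_of_antitone (μ := (volume : Measure E3))
    (f := fun z : E3 => ‖z‖⁻¹) (s := fun n : ℕ => Metric.ball (0 : E3) (1 / ((n : ℝ) + 1)))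
    (fun n => Metric.isOpen_ball.measurableSet)
    (fun m n hmn => Metric.ball_subset_ball (by
      apply one_div_le_one_div_of_le (by positivity)
      have : (m : ℝ) ≤ n := by exact_mod_cast hmn
      linarith))
    ⟨0, kint _⟩
  have h2 : (⋂ n : ℕ, Metric.ball (0 : E3) (1 / ((n : ℝ) + 1))) = {0} := by
    ext x
    simp only [mem_iInter, mem_ball_zero_iff, mem_singleton_iff]
    constructor
    · intro h
      by_contra hx
      have hx' : 0 < ‖x‖ := norm_pos_iff.2 hx
      obtain ⟨n, hn⟩ := exists_nat_one_div_lt hx'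
      exact absurd (h n) (by linarith)
    · rintro rfl n
      rw [norm_zero]
      positivity
  rw [h2] at h1
  have h3 : ∫ z in ({0} : Set E3), ‖z‖⁻¹ = 0 := by
    rw [Measure.restrict_singleton]
    simp
  rw [h3] at h1
  exact h1

theorem V_sub_Vt {R : ℝ} {a : E3 → ℝ} (ha : Nice R a) {δ : ℝ} (hδ : 0 < δ) (x : E3) :
    |V a x - Vt a δ x| ≤ Itail δ := by
  have h1 : V a x - Vt a δ x = ∫ y, (a y * ‖x - y‖⁻¹ - a y * (max ‖x - y‖ δ)⁻¹) := by
    unfold V Vt
    rw [integral_sub (ha.integrable x) (ha.integrable_t hδ x)]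
  have h2 : Itail δ = ∫ y, (Metric.ball (0 : E3) δ).indicator (fun z => ‖z‖⁻¹) (x - y) := by
    rw [integral_sub_left_eq_self (fun z => (Metric.ball (0 : E3) δ).indicator (fun z => ‖z‖⁻¹) z),
      integral_indicator Metric.isOpen_ball.measurableSet]
    rfl
  rw [h1, h2]
  refine (norm_integral_le_integral_norm _).trans (integral_mono_ae
    ((ha.integrable x).sub (ha.integrable_t hδ x)).norm (kint_shift x δ) ?_)
  have hne : ∀ᵐ y : E3, y ≠ x := by
    rw [ae_iff]
    simp
  filter_upwards [hne] with y hy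
  simp only [Pi.sub_apply]
  have hpos : 0 < ‖x - y‖ := norm_pos_iff.2 (sub_ne_zero.2 (Ne.symm hy))
  have h0 := ha.nonneg y
  have h0' := ha.le_one y
  by_cases hb : (x - y) ∈ Metric.ball (0 : E3) δ
  · rw [indicator_of_mem hb]
    rw [mem_ball_zero_iff] at hb
    rw [max_eq_right hb.le]
    have e1 : δ⁻¹ ≤ ‖x - y‖⁻¹ := inv_anti₀ hpos hb.le
    have e2 : 0 < δ⁻¹ := by positivity
    have e3 : 0 ≤ a y * ‖x - y‖⁻¹ - a y * δ⁻¹ := by nlinarith
    rw [Real.norm_of_nonneg e3]
    nlinarith
  · rw [indicator_of_notMem hb]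
    have : δ ≤ ‖x - y‖ := by
      rw [mem_ball_zero_iff] at hb
      exact not_lt.1 hb
    rw [max_eq_left this, sub_self, norm_zero]

theorem V_cont {R : ℝ} {a : E3 → ℝ} (ha : Nice R a) : Continuous (V a) := by
  refine continuous_of_uniform_approx_of_continuous fun u hu => ?_
  obtain ⟨ε, hε, hεu⟩ := Metric.mem_uniformity_dist.1 hu
  obtain ⟨n, hn⟩ := (Itail_tendsto.eventually (gt_mem_nhds hε)).exists
  refine ⟨Vt a (1 / ((n : ℝ) + 1)), Vt_cont ha (by positivity), fun x => hεu ?_⟩
  rw [Real.dist_eq]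
  exact lt_of_le_of_lt (V_sub_Vt ha (by positivity) x) hn

theorem V_decay {R : ℝ} {a : E3 → ℝ} (ha : Nice R a) {x : E3} (hx : R < ‖x‖) :
    V a x ≤ (‖x‖ - R)⁻¹ * ∫ y, a y := by
  unfold V
  rw [← integral_const_mul]
  refine integral_mono_ae (ha.integrable x) (ha.integrable_self.const_mul _) ?_
  refine Eventually.of_forall fun y => ?_
  have h0 := ha.nonneg y
  by_cases hy : R < ‖y‖
  · simp only
    rw [ha.supp y hy]
    simp
  · push Not at hy
    have h1 : ‖x‖ - R ≤ ‖x - y‖ := by
      have := norm_sub_norm_le x y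
      linarith
    have h2 : ‖x - y‖⁻¹ ≤ (‖x‖ - R)⁻¹ := inv_anti₀ (by linarith) h1
    simp only
    nlinarith

/-- the mean over a sphere of a potential -/
theorem V_sphere {R : ℝ} {a : E3 → ℝ} (ha : Nice R a) (x : E3) {ρ : ℝ} (hρ : 0 < ρ) :
    ∫ ω : S2, V a (x + ρ • (ω : E3)) ∂sig = Vt a ρ x := by
  have hc : Continuous (fun ω : S2 => V a (x + ρ • (ω : E3))) := (V_cont ha).comp (by fun_prop)
  have hle : ∀ z, ENNReal.ofReal (V a z) = ∫⁻ y, ENNReal.ofReal (a y * ‖z - y‖⁻¹) := by
    intro z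
    unfold V
    rw [ofReal_integral_eq_lintegral_ofReal (ha.integrable z)]
    refine Eventually.of_forall fun y => ?_
    have h0 := ha.nonneg y
    simp only [Pi.zero_apply]
    positivity
  have h1 : ∫⁻ ω : S2, ENNReal.ofReal (V a (x + ρ • (ω : E3))) ∂sig = ENNReal.ofReal (Vt a ρ x) := by
    simp only [hle]
    rw [lintegral_lintegral_swap]
    · unfold Vt
      rw [ofReal_integral_eq_lintegral_ofReal (ha.integrable_t hρ x)]
      · refine lintegral_congr fun y => ?_
        have h0 := ha.nonneg y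
        have e1 : ∀ ω : S2, ENNReal.ofReal (a y * ‖x + ρ • (ω : E3) - y‖⁻¹) =
            ENNReal.ofReal (a y) * ENNReal.ofReal (‖ρ • (ω : E3) - (y - x)‖⁻¹) := by
          intro ω
          rw [← ENNReal.ofReal_mul h0]
          congr 4
          abel
        simp only [e1]
        rw [lintegral_const_mul' _ _ ENNReal.ofReal_ne_top, newton_sphere _ hρ,
          ← ENNReal.ofReal_mul h0, norm_sub_rev y x]
      · refine Eventually.of_forall fun y => ?_
        have h0 := ha.nonneg y
        have : 0 < max ‖x - y‖ ρ := lt_max_of_lt_right hρ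
        simp only [Pi.zero_apply]
        positivity
    · apply Measurable.aemeasurable
      apply ENNReal.measurable_ofReal.comp
      apply (ha.meas.comp measurable_snd).mul
      apply Measurable.inv
      apply Continuous.measurable
      fun_prop
  have h2 : ∫ ω : S2, V a (x + ρ • (ω : E3)) ∂sig =
      (∫⁻ ω : S2, ENNReal.ofReal (V a (x + ρ • (ω : E3))) ∂sig).toReal := by
    rw [integral_eq_lintegral_of_nonneg_ae (Eventually.of_forall fun ω => V_nonneg ha _)
      hc.aestronglyMeasurable]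
  rw [h2, h1, ENNReal.toReal_ofReal]
  unfold Vt
  apply integral_nonneg
  intro y
  have h0 := ha.nonneg y
  have : 0 < max ‖x - y‖ ρ := lt_max_of_lt_right hρ
  simp only [Pi.zero_apply]
  positivity

end Pool.Agent.TH331.Cav
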