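import Pool.Agent.TH331.Cav.C2

set_option autoImplicit false
open MeasureTheory Set Filter Topology
open scoped ENNReal

namespace Pool.Agent.TH331.Cav

theorem ker_diff_nonneg (z : E3) {ρ : ℝ} (hz : z ≠ 0) : 0 ≤ ‖z‖⁻¹ - (max ‖z‖ ρ)⁻¹ := by
  have h1 : 0 < ‖z‖ := norm_pos_iff.2 hz
  have h2 : (max ‖z‖ ρ)⁻¹ ≤ ‖z‖⁻¹ := inv_anti₀ h1 (le_max_left _ _)
  linarith

theorem ker_diff_zero (z : E3) {ρ : ℝ} (hz : ρ ≤ ‖z‖) : ‖z‖⁻¹ - (max ‖z‖ ρ)⁻¹ = 0 := by
  rw [max_eq_left hz, sub_self]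

theorem V_sub_Vt_eq {R : ℝ} {a : E3 → ℝ} (ha : Nice R a) {ρ : ℝ} (hρ : 0 < ρ) (x : E3) :
    V a x - Vt a ρ x = ∫ y, a y * (‖x - y‖⁻¹ - (max ‖x - y‖ ρ)⁻¹) := by
  unfold V Vt
  rw [← integral_sub (ha.integrable x) (ha.integrable_t hρ x)]
  simp only [mul_sub]

/-- minimum principle for differences of Newtonian potentials -/
theorem min_principle {Ra Rb : ℝ} {a b : E3 → ℝ} (ha : Nice Ra a) (hb : Nice Rb b) {c0 : ℝ}
    (hc0 : 0 ≤ c0) {D : Set E3} (hD : IsOpen D)
    (hbd : ∀ x ∈ frontier D, 0 ≤ c0 + V a x - V b x)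
    (hloc : ∀ x ∈ D, c0 + V a x - V b x < 0 → ∃ ρ > 0, ∀ᵐ y, y ∈ Metric.ball x ρ → b y ≤ a y) :
    ∀ x ∈ D, 0 ≤ c0 + V a x - V b x := by
  intro x0 hx0
  by_contra hneg
  push Not at hneg
  obtain ⟨w, hw⟩ : ∃ w : E3 → ℝ, w = fun x => c0 + V a x - V b x := ⟨_, rfl⟩
  have hwc : Continuous w := by
    rw [hw]
    exact (continuous_const.add (V_cont ha)).sub (V_cont hb)
  have hwx0 : w x0 < 0 := by rw [hw]; exact hneg
  -- the set where w is at most w x0 is compact
  have hcomp : IsCompact {x | x ∈ closure D ∧ w x ≤ w x0} := by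
    apply Metric.isCompact_of_isClosed_isBounded
    · exact isClosed_closure.inter (isClosed_le hwc continuous_const)
    · obtain ⟨C, hC⟩ : ∃ C : ℝ, C = ∫ y, b y := ⟨_, rfl⟩
      have hC0 : 0 ≤ C := by
        rw [hC]; exact integral_nonneg fun y => hb.nonneg y
      rw [isBounded_iff_forall_norm_le]
      refine ⟨max (Rb + 1) (Rb + C / (-w x0) + 1), fun x hx => ?_⟩
      by_contra hlt
      push Not at hlt
      have h1 : Rb + 1 < ‖x‖ := lt_of_le_of_lt (le_max_left _ _) hlt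
      have h2 : Rb + C / (-w x0) + 1 < ‖x‖ := lt_of_le_of_lt (le_max_right _ _) hlt
      have h3 := V_decay hb (x := x) (by linarith)
      rw [← hC] at h3
      have h4 : w x = c0 + V a x - V b x := by rw [hw]
      have h5 := V_nonneg ha x
      have h6 := hx.2
      have h7 : -w x0 ≤ V b x := by linarith
      have h8 : 0 < ‖x‖ - Rb := by linarith
      have h9 : -w x0 * (‖x‖ - Rb) ≤ C := by
        have := h7.trans h3
        rw [inv_mul_eq_div, le_div_iff₀ h8] at this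
        exact this
      have h10 : C / (-w x0) < ‖x‖ - Rb := by linarith
      rw [div_lt_iff₀ (by linarith)] at h10
      linarith
  obtain ⟨xm, hxm, hmin⟩ := hcomp.exists_isMinOn ⟨x0, subset_closure hx0, le_refl _⟩ hwc.continuousOn
  obtain ⟨m, hm⟩ : ∃ m : ℝ, m = w xm := ⟨_, rfl⟩
  have hm0 : m < 0 := by rw [hm]; linarith [hxm.2]
  have hge : ∀ x ∈ closure D, m ≤ w x := by
    intro x hx
    by_cases h : w x ≤ w x0
    · rw [hm]; exact hmin ⟨hx, h⟩
    · push Not at h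
      have := hxm.2
      rw [← hm] at this
      linarith
  have hcomp2 : IsCompact {x | x ∈ closure D ∧ w x = m} := by
    refine hcomp.of_isClosed_subset (isClosed_closure.inter (isClosed_eq hwc continuous_const)) ?_
    rintro x ⟨h1, h2⟩
    refine ⟨h1, ?_⟩
    rw [h2, hm]
    exact hxm.2
  have hc : Continuous (fun x : E3 => x 0) := by fun_prop
  obtain ⟨x1, hx1, hmax⟩ := hcomp2.exists_isMaxOn ⟨xm, hxm.1, hm.symm⟩ hc.continuousOn
  have hx1D : x1 ∈ D := by
    by_contra hnot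
    have hfr : x1 ∈ frontier D := by
      rw [frontier, hD.interior_eq]
      exact ⟨hx1.1, hnot⟩
    have h1 := hbd x1 hfr
    have h2 : w x1 = c0 + V a x1 - V b x1 := by rw [hw]
    have h3 := hx1.2
    linarith
  have hwx1 : w x1 < 0 := by rw [hx1.2]; exact hm0
  obtain ⟨ρ1, hρ1, hab⟩ := hloc x1 hx1D (by
    have h2 : w x1 = c0 + V a x1 - V b x1 := by rw [hw]
    linarith)
  obtain ⟨ρ2, hρ2, hball⟩ := Metric.isOpen_iff.1 hD x1 hx1D
  obtain ⟨ρ, hρ, hρl1, hρl2⟩ : ∃ ρ : ℝ, 0 < ρ ∧ ρ < ρ1 ∧ ρ < ρ2 :=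
    ⟨min ρ1 ρ2 / 2, by positivity, by
      have := min_le_left ρ1 ρ2
      have h3 : 0 < min ρ1 ρ2 := lt_min hρ1 hρ2
      linarith, by
      have := min_le_right ρ1 ρ2
      have h3 : 0 < min ρ1 ρ2 := lt_min hρ1 hρ2
      linarith⟩
  -- the mean value inequality
  have hsm : ∫ ω : S2, w (x1 + ρ • (ω : E3)) ∂sig = c0 + Vt a ρ x1 - Vt b ρ x1 := by
    rw [hw]
    have i1 : Integrable (fun ω : S2 => V a (x1 + ρ • (ω : E3))) sig := by
      have : Continuous (fun ω : S2 => V a (x1 + ρ • (ω : E3))) := (V_cont ha).comp (by fun_prop)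
      exact this.integrable_of_hasCompactSupport (HasCompactSupport.of_compactSpace _)
    have i2 : Integrable (fun ω : S2 => V b (x1 + ρ • (ω : E3))) sig := by
      have : Continuous (fun ω : S2 => V b (x1 + ρ • (ω : E3))) := (V_cont hb).comp (by fun_prop)
      exact this.integrable_of_hasCompactSupport (HasCompactSupport.of_compactSpace _)
    have e1 : ∫ ω : S2, (c0 + V a (x1 + ρ • (ω : E3)) - V b (x1 + ρ • (ω : E3))) ∂sig =
        (∫ ω : S2, (c0 + V a (x1 + ρ • (ω : E3))) ∂sig) - ∫ ω : S2, V b (x1 + ρ • (ω : E3)) ∂sig :=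
      integral_sub ((integrable_const c0).add i1) i2
    have e2 : ∫ ω : S2, (c0 + V a (x1 + ρ • (ω : E3))) ∂sig =
        (∫ _ω : S2, c0 ∂sig) + ∫ ω : S2, V a (x1 + ρ • (ω : E3)) ∂sig :=
      integral_add (integrable_const c0) i1
    simp only
    rw [e1, e2, V_sphere ha x1 hρ, V_sphere hb x1 hρ]
    simp
  have hne : ∀ᵐ y : E3, y ≠ x1 := by
    rw [ae_iff]
    simp
  have hmv : c0 + Vt a ρ x1 - Vt b ρ x1 ≤ m := by
    have h1 : 0 ≤ (V a x1 - Vt a ρ x1) - (V b x1 - Vt b ρ x1) := by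
      rw [V_sub_Vt_eq ha hρ, V_sub_Vt_eq hb hρ, sub_nonneg]
      have j1 : Integrable (fun y => a y * (‖x1 - y‖⁻¹ - (max ‖x1 - y‖ ρ)⁻¹)) := by
        simp only [mul_sub]
        exact (ha.integrable x1).sub (ha.integrable_t hρ x1)
      have j2 : Integrable (fun y => b y * (‖x1 - y‖⁻¹ - (max ‖x1 - y‖ ρ)⁻¹)) := by
        simp only [mul_sub]
        exact (hb.integrable x1).sub (hb.integrable_t hρ x1)
      refine integral_mono_ae j2 j1 ?_
      filter_upwards [hab, hne] with y hy hyne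
      by_cases hyb : y ∈ Metric.ball x1 ρ1
      · exact mul_le_mul_of_nonneg_right (hy hyb)
          (ker_diff_nonneg _ (sub_ne_zero.2 (Ne.symm hyne)))
      · have : ρ ≤ ‖x1 - y‖ := by
          rw [Metric.mem_ball, dist_comm, dist_eq_norm] at hyb
          linarith [not_lt.1 hyb]
        rw [ker_diff_zero _ this, mul_zero, mul_zero]
    have h2 : w x1 = c0 + V a x1 - V b x1 := by rw [hw]
    have h3 := hx1.2
    linarith
  -- strictness
  have hdom : ∀ ω : S2, x1 + ρ • (ω : E3) ∈ D := by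
    intro ω
    apply hball
    rw [Metric.mem_ball, dist_eq_norm, add_sub_cancel_left, norm_smul, Real.norm_eq_abs,
      abs_of_pos hρ]
    simpa using hρl2
  have hcw : Continuous (fun ω : S2 => w (x1 + ρ • (ω : E3)) - m) :=
    (hwc.comp (by fun_prop)).sub continuous_const
  have hiw : Integrable (fun ω : S2 => w (x1 + ρ • (ω : E3)) - m) sig :=
    hcw.integrable_of_hasCompactSupport (HasCompactSupport.of_compactSpace _)
  have hnn : ∀ ω : S2, 0 ≤ w (x1 + ρ • (ω : E3)) - m := fun ω => by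
    have := hge _ (subset_closure (hdom ω))
    linarith
  have hpos : 0 < ∫ ω : S2, (w (x1 + ρ • (ω : E3)) - m) ∂sig := by
    rw [integral_pos_iff_support_of_nonneg hnn hiw]
    let p : S2 := ⟨EuclideanSpace.single 0 1, by simp⟩
    refine lt_of_lt_of_le (pos_iff_ne_zero.2 (half_pos p)) (measure_mono ?_)
    intro ω hω
    rw [Function.mem_support]
    intro h0
    have h1 : w (x1 + ρ • (ω : E3)) = m := by linarith
    have h2 := hmax (show x1 + ρ • (ω : E3) ∈ {x | x ∈ closure D ∧ w x = m} from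
      ⟨subset_closure (hdom ω), h1⟩)
    have h3 : (0 : ℝ) < (ω : E3) 0 := by
      have h4 : (0 : ℝ) < inner ℝ (EuclideanSpace.single (0 : Fin 3) (1 : ℝ)) (ω : E3) := hω
      rw [EuclideanSpace.inner_single_left] at h4
      simpa using h4
    have h5 : (x1 + ρ • (ω : E3)) 0 ≤ x1 0 := h2
    have h6 : (x1 + ρ • (ω : E3)) 0 = x1 0 + ρ * (ω : E3) 0 := by simp
    rw [h6] at h5
    nlinarith
  have h1 : ∫ ω : S2, (w (x1 + ρ • (ω : E3)) - m) ∂sig =
      (∫ ω : S2, w (x1 + ρ • (ω : E3)) ∂sig) - m := by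
    rw [integral_sub _ (integrable_const m)]
    · simp
    · exact (hwc.comp (by fun_prop : Continuous fun ω : S2 => x1 + ρ • (ω : E3))).integrable_of_hasCompactSupport
        (HasCompactSupport.of_compactSpace _)
  rw [h1, hsm] at hpos
  linarith

end Pool.Agent.TH331.Cav
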