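import Pool.Agent.TH331.Cav.C3

set_option autoImplicit false
open MeasureTheory Set Filter Topology
open scoped ENNReal

namespace Pool.Agent.TH331.Cav

/-- the kernel `|z|^(-2)` -/
noncomputable def gg (z : E3) : ℝ≥0∞ := ENNReal.ofReal ((‖z‖ ^ 2)⁻¹)

theorem gg_meas : Measurable gg :=
  ENNReal.measurable_ofReal.comp ((measurable_norm.pow_const 2).inv)

theorem gg_neg (z : E3) : gg (-z) = gg z := by
  unfold gg
  rw [norm_neg]

/-- its convolution square -/
noncomputable def PhiC (v : E3) : ℝ≥0∞ := ∫⁻ z, gg z * gg (v - z)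

theorem PhiC_iso (L : E3 ≃ₗᵢ[ℝ] E3) (v : E3) : PhiC (L v) = PhiC v := by
  unfold PhiC
  have h := L.measurePreserving.lintegral_comp (f := fun z => gg z * gg (L v - z))
    (gg_meas.mul (gg_meas.comp (measurable_const.sub measurable_id)))
  rw [← h]
  refine lintegral_congr fun z => ?_
  have h1 : L v - L z = L (v - z) := by rw [map_sub]
  rw [h1]
  unfold gg
  rw [L.norm_map, L.norm_map]

theorem gg_smul {r : ℝ} (hr : 0 < r) (z : E3) : gg (r • z) = ENNReal.ofReal ((r ^ 2)⁻¹) * gg z := by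
  unfold gg
  rw [← ENNReal.ofReal_mul (by positivity), norm_smul, Real.norm_eq_abs, abs_of_pos hr, mul_pow,
    mul_inv]

theorem PhiC_smul {r : ℝ} (hr : 0 < r) (v : E3) :
    PhiC (r • v) = ENNReal.ofReal (r⁻¹) * PhiC v := by
  have hfr : Module.finrank ℝ E3 = 3 := by simp
  have hmap := Measure.map_addHaar_smul (volume : Measure E3) hr.ne'
  rw [hfr] at hmap
  have hm : Measurable (fun z : E3 => r • z) := measurable_const_smul r
  have hF : Measurable (fun z => gg z * gg (r • v - z)) :=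
    gg_meas.mul (gg_meas.comp (measurable_const.sub measurable_id))
  have h1 : ∫⁻ z, (fun z => gg z * gg (r • v - z)) (r • z) =
      ENNReal.ofReal |(r ^ 3)⁻¹| * ∫⁻ z, gg z * gg (r • v - z) := by
    rw [← lintegral_map hF hm, hmap, lintegral_smul_measure, smul_eq_mul]
  have h2 : ∫⁻ z, (fun z => gg z * gg (r • v - z)) (r • z) =
      (ENNReal.ofReal ((r ^ 2)⁻¹) * ENNReal.ofReal ((r ^ 2)⁻¹)) * PhiC v := by
    unfold PhiC
    rw [← lintegral_const_mul' _ _ (ENNReal.mul_ne_top ENNReal.ofReal_ne_top ENNReal.ofReal_ne_top)]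
    refine lintegral_congr fun z => ?_
    simp only
    rw [← smul_sub, gg_smul hr, gg_smul hr]
    ring
  rw [h2] at h1
  have h3 : PhiC (r • v) = ∫⁻ z, gg z * gg (r • v - z) := rfl
  rw [← h3] at h1
  have h4 : |(r ^ 3)⁻¹| = (r ^ 3)⁻¹ := abs_of_pos (by positivity)
  rw [h4] at h1
  have h5 : ENNReal.ofReal (r ^ 3) * (ENNReal.ofReal ((r ^ 3)⁻¹) * PhiC (r • v)) = PhiC (r • v) := by
    rw [← mul_assoc, ← ENNReal.ofReal_mul (by positivity)]
    have : r ^ 3 * (r ^ 3)⁻¹ = 1 := by field_simp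
    rw [this, ENNReal.ofReal_one, one_mul]
  rw [← h5, ← h1, ← mul_assoc, ← ENNReal.ofReal_mul (by positivity), ← ENNReal.ofReal_mul (by positivity)]
  congr 2
  field_simp

theorem gg_ball : ∫⁻ z in Metric.ball (0 : E3) (1 / 2), gg z ≠ ∞ := by
  have hfr : Module.finrank ℝ E3 = 3 := by simp
  have h : IntegrableOn (fun z : E3 => (‖z‖ ^ 2)⁻¹) (Metric.ball (0 : E3) (1 / 2)) := by
    refine integrableOn_ball_of_norm_le_rpow (C := 1) (α := 2) (by rw [hfr]; norm_num)
      (by rw [hfr]; norm_num) ?_ ?_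
    · refine Filter.Eventually.of_forall fun x => ?_
      rw [one_mul, Real.rpow_neg (norm_nonneg _), Real.norm_of_nonneg (by positivity)]
      apply le_of_eq
      congr 1
      norm_cast
    · exact ((measurable_norm.pow_const 2).inv).aestronglyMeasurable
  have h2 := h.2
  unfold HasFiniteIntegral at h2
  refine ne_of_lt (lt_of_le_of_lt (le_of_eq ?_) h2)
  refine lintegral_congr fun z => ?_
  unfold gg
  rw [Real.enorm_eq_ofReal (by positivity)]

/-- unit vector -/
noncomputable def e0 : E3 := EuclideanSpace.single 0 1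

theorem e0_norm : ‖e0‖ = 1 := by simp [e0]

theorem PhiC_fin : PhiC e0 ≠ ∞ := by
  obtain ⟨I, hI⟩ : ∃ I : ℝ≥0∞, I = ∫⁻ z in Metric.ball (0 : E3) (1 / 2), gg z := ⟨_, rfl⟩
  have hIt : I ≠ ∞ := by rw [hI]; exact gg_ball
  have hfr : Module.finrank ℝ E3 = 3 := by simp
  have hint : Integrable (fun z : E3 => (1 + ‖z‖) ^ (-(4 : ℝ))) := by
    apply integrable_one_add_norm
    rw [hfr]
    norm_num
  have hJt : ∫⁻ z : E3, ENNReal.ofReal (225 * (1 + ‖z‖) ^ (-(4 : ℝ))) ≠ ∞ := by
    have h2 := (hint.const_mul 225).2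
    unfold HasFiniteIntegral at h2
    refine ne_of_lt (lt_of_le_of_lt (le_of_eq ?_) h2)
    refine lintegral_congr fun z => ?_
    rw [Real.enorm_eq_ofReal (by positivity)]
  -- pointwise bound
  have hpt : ∀ z, gg z * gg (e0 - z) ≤
      4 * (Metric.ball (0 : E3) (1 / 2)).indicator gg z +
      4 * (Metric.ball (0 : E3) (1 / 2)).indicator gg (e0 - z) +
      ENNReal.ofReal (225 * (1 + ‖z‖) ^ (-(4 : ℝ))) := by
    intro z
    have hsmall : ∀ u : E3, 1 / 2 ≤ ‖u‖ → gg u ≤ 4 := by
      intro u hu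
      unfold gg
      have : (‖u‖ ^ 2)⁻¹ ≤ 4 := by
        rw [inv_le_comm₀ (by positivity) (by norm_num)]
        nlinarith
      calc ENNReal.ofReal ((‖u‖ ^ 2)⁻¹) ≤ ENNReal.ofReal 4 := ENNReal.ofReal_le_ofReal this
        _ = 4 := by norm_num
    have htri : ‖e0‖ ≤ ‖z‖ + ‖e0 - z‖ := by
      have := norm_add_le z (e0 - z)
      simpa using this
    have htri2 : ‖z‖ ≤ ‖e0‖ + ‖e0 - z‖ := by
      have := norm_sub_le e0 (e0 - z)
      simpa using this
    rw [e0_norm] at htri htri2
    by_cases h1 : ‖z‖ < 1 / 2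
    · have h2 : 1 / 2 ≤ ‖e0 - z‖ := by linarith
      rw [indicator_of_mem (mem_ball_zero_iff.2 h1)]
      calc gg z * gg (e0 - z) ≤ gg z * 4 := mul_le_mul_right (hsmall _ h2) _
        _ = 4 * gg z := mul_comm _ _
        _ ≤ _ := by rw [add_assoc]; exact le_self_add
    · by_cases h2 : ‖e0 - z‖ < 1 / 2
      · rw [indicator_of_mem (mem_ball_zero_iff.2 h2) (f := gg)]
        calc gg z * gg (e0 - z) ≤ 4 * gg (e0 - z) := mul_le_mul_left (hsmall _ (not_lt.1 h1)) _
          _ ≤ _ := by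
            rw [add_comm (4 * (Metric.ball (0 : E3) (1 / 2)).indicator gg z), add_assoc]
            exact le_self_add
      · push Not at h1 h2
        refine le_trans ?_ le_add_self
        unfold gg
        rw [← ENNReal.ofReal_mul (by positivity)]
        apply ENNReal.ofReal_le_ofReal
        have a1 : (1 + ‖z‖) / 3 ≤ ‖z‖ := by linarith
        have a2 : (1 + ‖z‖) / 5 ≤ ‖e0 - z‖ := by
          by_cases h3 : ‖z‖ ≤ 3 / 2
          · linarith
          · push Not at h3
            linarith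
        have hp : 0 < 1 + ‖z‖ := by positivity
        have b1 : (‖z‖ ^ 2)⁻¹ ≤ 9 * ((1 + ‖z‖) ^ 2)⁻¹ := by
          have h5 : ((1 + ‖z‖) / 3) ^ 2 ≤ ‖z‖ ^ 2 := by gcongr
          have h6 := inv_anti₀ (by positivity) h5
          refine h6.trans (le_of_eq ?_)
          field_simp
          norm_num
        have b2 : (‖e0 - z‖ ^ 2)⁻¹ ≤ 25 * ((1 + ‖z‖) ^ 2)⁻¹ := by
          have h5 : ((1 + ‖z‖) / 5) ^ 2 ≤ ‖e0 - z‖ ^ 2 := by gcongr
          have h6 := inv_anti₀ (by positivity) h5
          refine h6.trans (le_of_eq ?_)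
          field_simp
          norm_num
        have b3 : (1 + ‖z‖) ^ (-(4 : ℝ)) = ((1 + ‖z‖) ^ 2)⁻¹ * ((1 + ‖z‖) ^ 2)⁻¹ := by
          rw [Real.rpow_neg hp.le, ← mul_inv]
          congr 1
          rw [← pow_add]
          norm_cast
        rw [b3]
        calc (‖z‖ ^ 2)⁻¹ * (‖e0 - z‖ ^ 2)⁻¹
            ≤ (9 * ((1 + ‖z‖) ^ 2)⁻¹) * (25 * ((1 + ‖z‖) ^ 2)⁻¹) := by gcongr
          _ = _ := by ring
  have hm1 : Measurable ((Metric.ball (0 : E3) (1 / 2)).indicator gg) :=
    gg_meas.indicator Metric.isOpen_ball.measurableSet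
  have hI1 : ∫⁻ z, (Metric.ball (0 : E3) (1 / 2)).indicator gg z = I := by
    rw [lintegral_indicator Metric.isOpen_ball.measurableSet, hI]
  have hI2 : ∫⁻ z, (Metric.ball (0 : E3) (1 / 2)).indicator gg (e0 - z) = I := by
    rw [← hI1]
    exact lintegral_sub_left_eq_self (fun z => (Metric.ball (0 : E3) (1 / 2)).indicator gg z) e0
  unfold PhiC
  refine ne_top_of_le_ne_top ?_ (lintegral_mono hpt)
  have m1 : Measurable (fun z : E3 => 4 * (Metric.ball (0 : E3) (1 / 2)).indicator gg z) :=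
    hm1.const_mul 4
  have m2' : Measurable (fun z : E3 => (Metric.ball (0 : E3) (1 / 2)).indicator gg (e0 - z)) :=
    hm1.comp (measurable_const.sub measurable_id)
  have m12 : Measurable (fun z : E3 => 4 * (Metric.ball (0 : E3) (1 / 2)).indicator gg z +
      4 * (Metric.ball (0 : E3) (1 / 2)).indicator gg (e0 - z)) := m1.add (m2'.const_mul 4)
  rw [lintegral_add_left m12, lintegral_add_left m1, lintegral_const_mul 4 hm1,
    lintegral_const_mul 4 m2', hI1, hI2]
  exact ENNReal.add_ne_top.2 ⟨ENNReal.add_ne_top.2 ⟨ENNReal.mul_ne_top (by norm_num) hIt,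
    ENNReal.mul_ne_top (by norm_num) hIt⟩, hJt⟩

theorem PhiC_ne_zero : PhiC e0 ≠ 0 := by
  unfold PhiC
  intro h
  have hmm : Measurable (fun z : E3 => gg z * gg (e0 - z)) :=
    gg_meas.mul (gg_meas.comp (measurable_const.sub measurable_id))
  rw [lintegral_eq_zero_iff hmm] at h
  have h1 : ∀ᵐ z : E3, z ≠ 0 := by
    rw [ae_iff]
    simp
  have h2 : ∀ᵐ z : E3, z ≠ e0 := by
    rw [ae_iff]
    simp
  have h3 : ∀ᵐ _z : E3, False := by
    filter_upwards [h, h1, h2] with z hz hz1 hz2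
    simp only [Pi.zero_apply] at hz
    have p1 : 0 < ‖z‖ := norm_pos_iff.2 hz1
    have p2 : 0 < ‖e0 - z‖ := norm_pos_iff.2 (sub_ne_zero.2 (Ne.symm hz2))
    have q1 : 0 < gg z := by unfold gg; exact ENNReal.ofReal_pos.2 (by positivity)
    have q2 : 0 < gg (e0 - z) := by unfold gg; exact ENNReal.ofReal_pos.2 (by positivity)
    exact (ENNReal.mul_pos q1.ne' q2.ne').ne' hz
  simp only [eventually_false_iff_eq_bot, ae_eq_bot] at h3
  have h4 := Metric.measure_ball_pos volume (0 : E3) one_pos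
  rw [h3] at h4
  simp at h4

theorem PhiC_eq (v : E3) (hv : v ≠ 0) : PhiC v = ENNReal.ofReal (‖v‖⁻¹) * PhiC e0 := by
  have hpos : 0 < ‖v‖ := norm_pos_iff.2 hv
  obtain ⟨u, hu⟩ : ∃ u : E3, u = ‖v‖⁻¹ • v := ⟨_, rfl⟩
  have hun : ‖u‖ = 1 := by
    rw [hu, norm_smul, norm_inv, norm_norm]
    field_simp
  have hv' : v = ‖v‖ • u := by
    rw [hu, smul_smul, mul_inv_cancel₀ hpos.ne', one_smul]
  have h1 : PhiC u = PhiC e0 := by
    have h2 := Submodule.reflection_sub (F := E3) (v := e0) (w := u) (by rw [e0_norm, hun])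
    rw [← h2]
    exact PhiC_iso _ _
  conv_lhs => rw [hv']
  rw [PhiC_smul hpos, h1]

theorem PhiC_sub (x y : E3) : PhiC (x - y) = ∫⁻ z, gg (x - z) * gg (y - z) := by
  unfold PhiC
  rw [← lintegral_sub_left_eq_self (fun z => gg z * gg (x - y - z)) x]
  refine lintegral_congr fun z => ?_
  congr 1
  have : x - y - (x - z) = -(y - z) := by abel
  rw [this, gg_neg]

/-- mutual energy -/
noncomputable def En (p q : E3 → ℝ≥0∞) : ℝ≥0∞ :=
  ∫⁻ x, ∫⁻ y, p x * q y * ENNReal.ofReal (‖x - y‖⁻¹)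

theorem En_eq (p q : E3 → ℝ≥0∞) (hp : Measurable p) (hq : Measurable q) :
    PhiC e0 * En p q = ∫⁻ z, (∫⁻ x, p x * gg (x - z)) * (∫⁻ y, q y * gg (y - z)) := by
  have hgz : ∀ z : E3, Measurable (fun x => gg (x - z)) := fun z =>
    gg_meas.comp (measurable_id.sub measurable_const)
  have hgx : ∀ x : E3, Measurable (fun z => gg (x - z)) := fun x =>
    gg_meas.comp (measurable_const.sub measurable_id)
  have hne : ∀ x : E3, ∀ᵐ y : E3, y ≠ x := by
    intro x
    rw [ae_iff]
    simp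
  have h1 : PhiC e0 * En p q = ∫⁻ x, ∫⁻ y, ∫⁻ z, (p x * gg (x - z)) * (q y * gg (y - z)) := by
    unfold En
    rw [← lintegral_const_mul' _ _ PhiC_fin]
    refine lintegral_congr fun x => ?_
    rw [← lintegral_const_mul' _ _ PhiC_fin]
    refine lintegral_congr_ae ?_
    filter_upwards [hne x] with y hy
    have h2 := PhiC_eq (x - y) (sub_ne_zero.2 (Ne.symm hy))
    have h3 : ∫⁻ z, (p x * gg (x - z)) * (q y * gg (y - z)) = p x * q y * PhiC (x - y) := by
      have hmm : Measurable (fun z => gg (x - z) * gg (y - z)) := (hgx x).mul (hgx y)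
      rw [PhiC_sub, ← lintegral_const_mul _ hmm]
      refine lintegral_congr fun z => ?_
      ring
    rw [h3, h2]
    ring
  rw [h1]
  have hm3 : Measurable (fun q' : E3 × E3 => gg (q'.1 - q'.2)) :=
    gg_meas.comp (measurable_fst.sub measurable_snd)
  -- swap y and z
  have h4 : ∀ x, ∫⁻ y, ∫⁻ z, (p x * gg (x - z)) * (q y * gg (y - z)) =
      ∫⁻ z, (p x * gg (x - z)) * ∫⁻ y, q y * gg (y - z) := by
    intro x
    rw [lintegral_lintegral_swap]
    · refine lintegral_congr fun z => ?_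
      have hmm : Measurable (fun y => q y * gg (y - z)) := hq.mul (hgz z)
      rw [lintegral_const_mul _ hmm]
    · apply Measurable.aemeasurable
      exact (measurable_const.mul ((hgx x).comp measurable_snd)).mul
        ((hq.comp measurable_fst).mul hm3)
  simp only [h4]
  rw [lintegral_lintegral_swap]
  · refine lintegral_congr fun z => ?_
    have hmm : Measurable (fun x => p x * gg (x - z)) := hp.mul (hgz z)
    rw [← lintegral_mul_const _ hmm]
  · apply Measurable.aemeasurable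
    refine ((hp.comp measurable_fst).mul hm3).mul ?_
    have hm5 : Measurable (fun z => ∫⁻ y, q y * gg (y - z)) := by
      have : Measurable (fun w : E3 × E3 => q w.2 * gg (w.2 - w.1)) :=
        (hq.comp measurable_snd).mul (gg_meas.comp (measurable_snd.sub measurable_fst))
      exact this.lintegral_prod_right'
    exact hm5.comp measurable_snd

theorem two_mul_le (a b : ℝ≥0∞) : 2 * (a * b) ≤ a * a + b * b := by
  rcases le_total a b with h | h
  · obtain ⟨c, rfl⟩ := exists_add_of_le h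
    have : a * a + (a + c) * (a + c) = 2 * (a * (a + c)) + c * c := by ring
    rw [this]
    exact le_self_add
  · obtain ⟨c, rfl⟩ := exists_add_of_le h
    have : (b + c) * (b + c) + b * b = 2 * ((b + c) * b) + c * c := by ring
    rw [this]
    exact le_self_add

/-- positive definiteness of the Newtonian kernel -/
theorem En_posdef (p q : E3 → ℝ≥0∞) (hp : Measurable p) (hq : Measurable q) :
    2 * En p q ≤ En p p + En q q := by
  have h1 := En_eq p q hp hq
  have h2 := En_eq p p hp hp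
  have h3 := En_eq q q hq hq
  rw [← ENNReal.mul_le_mul_iff_right PhiC_ne_zero PhiC_fin, mul_add, h2, h3, mul_left_comm, h1]
  have hm : ∀ f : E3 → ℝ≥0∞, Measurable f → Measurable (fun z => ∫⁻ y, f y * gg (y - z)) := by
    intro f hf
    have : Measurable (fun w : E3 × E3 => f w.2 * gg (w.2 - w.1)) :=
      (hf.comp measurable_snd).mul (gg_meas.comp (measurable_snd.sub measurable_fst))
    exact this.lintegral_prod_right'
  have hpp : Measurable (fun z => (∫⁻ x, p x * gg (x - z)) * (∫⁻ y, p y * gg (y - z))) :=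
    (hm p hp).mul (hm p hp)
  have hpq : Measurable (fun z => (∫⁻ x, p x * gg (x - z)) * (∫⁻ y, q y * gg (y - z))) :=
    (hm p hp).mul (hm q hq)
  rw [← lintegral_add_left hpp, ← lintegral_const_mul _ hpq]
  exact lintegral_mono fun z => two_mul_le _ _

end Pool.Agent.TH331.Cav
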