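import Pool.Agent.TH331.Cav.C4

set_option autoImplicit false
open MeasureTheory Set Filter Topology
open scoped ENNReal

namespace Pool.Agent.TH331.Cav

/-- admissible densities -/
structure Adm (R : ℝ) (Q : Set E3) (f : E3 → ℝ) : Prop where
  nice : Nice R f
  off : ∀ y, y ∉ Q → f y = 0

/-- uniform bound for potentials -/
noncomputable def MM (R : ℝ) : ℝ := Itail 1 + (volume (Metric.closedBall (0 : E3) R)).toReal

theorem integral_le_vol {R : ℝ} {a : E3 → ℝ} (ha : Nice R a) :
    ∫ y, a y ≤ (volume (Metric.closedBall (0 : E3) R)).toReal := by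
  have h1 : Integrable ((Metric.closedBall (0 : E3) R).indicator (fun _ => (1 : ℝ))) := by
    rw [integrable_indicator_iff Metric.isClosed_closedBall.measurableSet]
    exact integrableOn_const (hs := (Metric.isBounded_closedBall.measure_lt_top).ne)
  have h2 : ∫ y, a y ≤ ∫ y, (Metric.closedBall (0 : E3) R).indicator (fun _ => (1 : ℝ)) y := by
    refine integral_mono ha.integrable_self h1 fun y => ?_
    by_cases hy : y ∈ Metric.closedBall (0 : E3) R
    · rw [indicator_of_mem hy]
      exact ha.le_one y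
    · rw [indicator_of_notMem hy]
      have : R < ‖y‖ := by
        rw [mem_closedBall_zero_iff] at hy
        linarith [not_le.1 hy]
      rw [ha.supp y this]
  rw [integral_indicator Metric.isClosed_closedBall.measurableSet, setIntegral_const, smul_eq_mul,
    mul_one] at h2
  exact h2

theorem V_le_MM {R : ℝ} {a : E3 → ℝ} (ha : Nice R a) (x : E3) : V a x ≤ MM R := by
  have h1 := V_sub_Vt ha one_pos x
  have h2 : Vt a 1 x ≤ ∫ y, a y := by
    unfold Vt
    refine integral_mono (ha.integrable_t one_pos x) ha.integrable_self fun y => ?_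
    have h0 := ha.nonneg y
    have h3 : (max ‖x - y‖ 1)⁻¹ ≤ 1 := inv_le_one_of_one_le₀ (le_max_right _ _)
    simp only
    nlinarith
  have h3 := integral_le_vol ha
  have h4 := (abs_le.1 h1).2
  unfold MM
  linarith

/-- the bilinear energy -/
noncomputable def BB (f g : E3 → ℝ) : ℝ := ∫ x, f x * V g x

theorem ofReal_V {R : ℝ} {a : E3 → ℝ} (ha : Nice R a) (x : E3) :
    ENNReal.ofReal (V a x) = ∫⁻ y, ENNReal.ofReal (a y) * ENNReal.ofReal (‖x - y‖⁻¹) := by
  unfold V
  rw [ofReal_integral_eq_lintegral_ofReal (ha.integrable x)]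
  · refine lintegral_congr fun y => ?_
    rw [ENNReal.ofReal_mul (ha.nonneg y)]
  · refine Eventually.of_forall fun y => ?_
    have h0 := ha.nonneg y
    simp only [Pi.zero_apply]
    positivity

theorem BB_integrable {R R' : ℝ} {f g : E3 → ℝ} (hf : Nice R f) (hg : Nice R' g) :
    Integrable (fun x => f x * V g x) := by
  refine (hf.integrable_self.mul_const (MM R')).mono'
    (hf.meas.mul (V_cont hg).measurable).aestronglyMeasurable (Eventually.of_forall fun x => ?_)
  have h0 := hf.nonneg x
  have h1 := V_nonneg hg x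
  rw [Real.norm_of_nonneg (by positivity)]
  exact mul_le_mul_of_nonneg_left (V_le_MM hg x) h0

theorem BB_eq {R R' : ℝ} {f g : E3 → ℝ} (hf : Nice R f) (hg : Nice R' g) :
    ENNReal.ofReal (BB f g) = En (fun x => ENNReal.ofReal (f x)) (fun x => ENNReal.ofReal (g x)) := by
  unfold BB En
  rw [ofReal_integral_eq_lintegral_ofReal (BB_integrable hf hg)]
  · refine lintegral_congr fun x => ?_
    rw [ENNReal.ofReal_mul (hf.nonneg x), ofReal_V hg, ← lintegral_const_mul' _ _ ENNReal.ofReal_ne_top]
    refine lintegral_congr fun y => ?_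
    ring
  · refine Eventually.of_forall fun x => ?_
    have h0 := hf.nonneg x
    have h1 := V_nonneg hg x
    simp only [Pi.zero_apply]
    positivity

theorem BB_nonneg {R R' : ℝ} {f g : E3 → ℝ} (hf : Nice R f) (hg : Nice R' g) : 0 ≤ BB f g := by
  unfold BB
  apply integral_nonneg
  intro x
  have h0 := hf.nonneg x
  have h1 := V_nonneg hg x
  simp only [Pi.zero_apply]
  positivity

theorem En_symm (p q : E3 → ℝ≥0∞) (hp : Measurable p) (hq : Measurable q) : En p q = En q p := by
  unfold En
  rw [lintegral_lintegral_swap]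
  · refine lintegral_congr fun y => lintegral_congr fun x => ?_
    rw [norm_sub_rev]
    ring
  · apply Measurable.aemeasurable
    refine ((hp.comp measurable_fst).mul (hq.comp measurable_snd)).mul ?_
    apply ENNReal.measurable_ofReal.comp
    apply Measurable.inv
    apply Continuous.measurable
    fun_prop

theorem BB_symm {R R' : ℝ} {f g : E3 → ℝ} (hf : Nice R f) (hg : Nice R' g) : BB f g = BB g f := by
  have h1 := BB_eq hf hg
  have h2 := BB_eq hg hf
  rw [En_symm _ _ hf.meas.ennreal_ofReal hg.meas.ennreal_ofReal, ← h2] at h1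
  exact (ENNReal.ofReal_eq_ofReal_iff (BB_nonneg hf hg) (BB_nonneg hg hf)).1 h1

theorem BB_posdef {R R' : ℝ} {f g : E3 → ℝ} (hf : Nice R f) (hg : Nice R' g) :
    2 * BB f g ≤ BB f f + BB g g := by
  have h := En_posdef _ _ hf.meas.ennreal_ofReal hg.meas.ennreal_ofReal
  rw [← BB_eq hf hg, ← BB_eq hf hf, ← BB_eq hg hg, ← ENNReal.ofReal_add (BB_nonneg hf hf)
    (BB_nonneg hg hg)] at h
  have h2 : (2 : ℝ≥0∞) = ENNReal.ofReal 2 := by norm_num
  rw [h2, ← ENNReal.ofReal_mul (by norm_num)] at h
  exact (ENNReal.ofReal_le_ofReal_iff (add_nonneg (BB_nonneg hf hf) (BB_nonneg hg hg))).1 h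

/-- the functional to be minimised -/
noncomputable def JJ (c : ℝ) (f : E3 → ℝ) : ℝ := 1 / 2 * BB f f - c * ∫ x, f x

theorem V_comb {R : ℝ} {f g : E3 → ℝ} (hf : Nice R f) (hg : Nice R g) (s t : ℝ) (x : E3) :
    V (fun y => s * f y + t * g y) x = s * V f x + t * V g x := by
  unfold V
  have h1 := (hf.integrable x).const_mul s
  have h2 := (hg.integrable x).const_mul t
  rw [← integral_const_mul, ← integral_const_mul, ← integral_add h1 h2]
  refine integral_congr_ae (Eventually.of_forall fun y => ?_)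
  simp only
  ring

theorem Nice.comb {R : ℝ} {f g : E3 → ℝ} (hf : Nice R f) (hg : Nice R g) {s t : ℝ} (hs : 0 ≤ s)
    (ht : 0 ≤ t) (hst : s + t = 1) : Nice R (fun y => s * f y + t * g y) where
  meas := (hf.meas.const_mul s).add (hg.meas.const_mul t)
  nonneg y := by
    have := hf.nonneg y
    have := hg.nonneg y
    positivity
  le_one y := by
    have h1 := mul_le_mul_of_nonneg_left (hf.le_one y) hs
    have h2 := mul_le_mul_of_nonneg_left (hg.le_one y) ht
    linarith
  supp y hy := by
    rw [hf.supp y hy, hg.supp y hy]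
    ring

theorem BB_comb {R : ℝ} {f g : E3 → ℝ} (hf : Nice R f) (hg : Nice R g) (s t : ℝ) :
    BB (fun y => s * f y + t * g y) (fun y => s * f y + t * g y) =
      s ^ 2 * BB f f + 2 * s * t * BB f g + t ^ 2 * BB g g := by
  have e1 : BB (fun y => s * f y + t * g y) (fun y => s * f y + t * g y) =
      ∫ x, (s ^ 2 * (f x * V f x) + s * t * (f x * V g x) + (s * t * (g x * V f x) +
        t ^ 2 * (g x * V g x))) := by
    unfold BB
    refine integral_congr_ae (Eventually.of_forall fun x => ?_)
    simp only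
    rw [V_comb hf hg]
    ring
  have i1 := (BB_integrable hf hf).const_mul (s ^ 2)
  have i2 := (BB_integrable hf hg).const_mul (s * t)
  have i3 := (BB_integrable hg hf).const_mul (s * t)
  have i4 := (BB_integrable hg hg).const_mul (t ^ 2)
  have e2 := BB_symm hg hf
  rw [e1]
  have e3 : ∫ x, (s ^ 2 * (f x * V f x) + s * t * (f x * V g x) + (s * t * (g x * V f x) +
        t ^ 2 * (g x * V g x))) = (∫ x, (s ^ 2 * (f x * V f x) + s * t * (f x * V g x))) +
        ∫ x, (s * t * (g x * V f x) + t ^ 2 * (g x * V g x)) := integral_add (i1.add i2) (i3.add i4)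
  have e4 : ∫ x, (s ^ 2 * (f x * V f x) + s * t * (f x * V g x)) =
      (∫ x, s ^ 2 * (f x * V f x)) + ∫ x, s * t * (f x * V g x) := integral_add i1 i2
  have e5 : ∫ x, (s * t * (g x * V f x) + t ^ 2 * (g x * V g x)) =
      (∫ x, s * t * (g x * V f x)) + ∫ x, t ^ 2 * (g x * V g x) := integral_add i3 i4
  rw [e3, e4, e5, integral_const_mul, integral_const_mul, integral_const_mul, integral_const_mul]
  have e6 : ∫ x, g x * V f x = BB g f := rfl
  have e7 : ∫ x, f x * V f x = BB f f := rfl
  have e8 : ∫ x, f x * V g x = BB f g := rfl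
  have e9 : ∫ x, g x * V g x = BB g g := rfl
  rw [e6, e7, e8, e9, e2]
  ring

theorem int_comb {R : ℝ} {f g : E3 → ℝ} (hf : Nice R f) (hg : Nice R g) (s t : ℝ) :
    ∫ y, (s * f y + t * g y) = s * (∫ y, f y) + t * ∫ y, g y := by
  rw [← integral_const_mul, ← integral_const_mul]
  exact integral_add (hf.integrable_self.const_mul s) (hg.integrable_self.const_mul t)

theorem JJ_convex {R c : ℝ} {f g : E3 → ℝ} (hf : Nice R f) (hg : Nice R g) {s t : ℝ} (hs : 0 ≤ s)
    (ht : 0 ≤ t) (hst : s + t = 1) :
    JJ c (fun y => s * f y + t * g y) ≤ s * JJ c f + t * JJ c g := by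
  unfold JJ
  rw [BB_comb hf hg, int_comb hf hg]
  have h := BB_posdef hf hg
  have hs' : s = 1 - t := by linarith
  subst hs'
  have h2 : 0 ≤ (1 - t) * t := mul_nonneg hs ht
  nlinarith [mul_le_mul_of_nonneg_left h h2]

theorem JJ_lip {R c : ℝ} {f g : E3 → ℝ} (hf : Nice R f) (hg : Nice R g) :
    |JJ c f - JJ c g| ≤ (MM R + |c|) * ∫ y, |f y - g y| := by
  have hfi := hf.integrable_self
  have hgi := hg.integrable_self
  have hd : Integrable (fun y => |f y - g y|) := (hfi.sub hgi).abs
  have h1 : JJ c f - JJ c g = ∫ y, (f y - g y) * (1 / 2 * (V f y + V g y) - c) := by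
    have e1 : ∫ y, (f y - g y) * (1 / 2 * (V f y + V g y) - c) =
        ∫ y, ((1 / 2 * (f y * V f y) + 1 / 2 * (f y * V g y) - c * f y) -
          (1 / 2 * (g y * V f y) + 1 / 2 * (g y * V g y) - c * g y)) := by
      refine integral_congr_ae (Eventually.of_forall fun y => ?_)
      simp only
      ring
    have i1 := (BB_integrable hf hf).const_mul (1 / 2)
    have i2 := (BB_integrable hf hg).const_mul (1 / 2)
    have i3 := (BB_integrable hg hf).const_mul (1 / 2)
    have i4 := (BB_integrable hg hg).const_mul (1 / 2)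
    have i5 := hfi.const_mul c
    have i6 := hgi.const_mul c
    have e2 : ∫ y, ((1 / 2 * (f y * V f y) + 1 / 2 * (f y * V g y) - c * f y) -
          (1 / 2 * (g y * V f y) + 1 / 2 * (g y * V g y) - c * g y)) =
        (∫ y, (1 / 2 * (f y * V f y) + 1 / 2 * (f y * V g y) - c * f y)) -
        ∫ y, (1 / 2 * (g y * V f y) + 1 / 2 * (g y * V g y) - c * g y) :=
      integral_sub ((i1.add i2).sub i5) ((i3.add i4).sub i6)
    have e3 : ∫ y, (1 / 2 * (f y * V f y) + 1 / 2 * (f y * V g y) - c * f y) =
        (∫ y, (1 / 2 * (f y * V f y) + 1 / 2 * (f y * V g y))) - ∫ y, c * f y :=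
      integral_sub (i1.add i2) i5
    have e4 : ∫ y, (1 / 2 * (g y * V f y) + 1 / 2 * (g y * V g y) - c * g y) =
        (∫ y, (1 / 2 * (g y * V f y) + 1 / 2 * (g y * V g y))) - ∫ y, c * g y :=
      integral_sub (i3.add i4) i6
    have e5 : ∫ y, (1 / 2 * (f y * V f y) + 1 / 2 * (f y * V g y)) =
        (∫ y, 1 / 2 * (f y * V f y)) + ∫ y, 1 / 2 * (f y * V g y) := integral_add i1 i2
    have e6 : ∫ y, (1 / 2 * (g y * V f y) + 1 / 2 * (g y * V g y)) =
        (∫ y, 1 / 2 * (g y * V f y)) + ∫ y, 1 / 2 * (g y * V g y) := integral_add i3 i4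
    rw [e1, e2, e3, e4, e5, e6, integral_const_mul, integral_const_mul, integral_const_mul,
      integral_const_mul, integral_const_mul, integral_const_mul]
    have e7 := BB_symm hg hf
    have e8 : ∫ y, g y * V f y = BB g f := rfl
    have e9 : ∫ y, f y * V f y = BB f f := rfl
    have e10 : ∫ y, f y * V g y = BB f g := rfl
    have e11 : ∫ y, g y * V g y = BB g g := rfl
    rw [e8, e9, e10, e11, e7]
    unfold JJ
    ring
  rw [h1, ← integral_const_mul, ← Real.norm_eq_abs]
  refine (norm_integral_le_integral_norm _).trans (integral_mono_of_nonneg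
    (Eventually.of_forall fun y => ?_) (hd.const_mul _) (Eventually.of_forall fun y => ?_))
  · simp only [Pi.zero_apply]
    exact norm_nonneg _
  simp only
  rw [Real.norm_eq_abs, abs_mul, mul_comm]
  refine mul_le_mul_of_nonneg_right ?_ (abs_nonneg _)
  have a1 := V_nonneg hf y
  have a2 := V_nonneg hg y
  have a3 := V_le_MM hf y
  have a4 := V_le_MM hg y
  rw [abs_le]
  constructor <;> linarith [neg_abs_le c, le_abs_self c, abs_nonneg c]

end Pool.Agent.TH331.Cav
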