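import Pool.Agent.TH331.Cav.C5

set_option autoImplicit false
open MeasureTheory Set Filter Topology
open scoped ENNReal

namespace Pool.Agent.TH331.Cav

theorem hilbert_nested {H : Type*} [NormedAddCommGroup H] [InnerProductSpace ℝ H] [CompleteSpace H]
    (C : ℕ → Set H) (hne : ∀ n, (C n).Nonempty) (hcl : ∀ n, IsClosed (C n))
    (hcv : ∀ n, Convex ℝ (C n)) (hanti : Antitone C) (B : ℝ) (hB : ∀ g ∈ C 0, ‖g‖ ≤ B) :
    ∃ g, ∀ n, g ∈ C n := by
  have h1 : ∀ n, ∃ v ∈ C n, ∀ w ∈ C n, ‖v‖ ≤ ‖w‖ := by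
    intro n
    obtain ⟨v, hv, hv2⟩ := exists_norm_eq_iInf_of_complete_convex (hne n) (hcl n).isComplete (hcv n) 0
    refine ⟨v, hv, fun w hw => ?_⟩
    have h2 : (⨅ w : C n, ‖0 - (w : H)‖) ≤ ‖0 - w‖ :=
      ciInf_le ⟨0, by rintro _ ⟨w, rfl⟩; exact norm_nonneg _⟩ (⟨w, hw⟩ : C n)
    rw [← hv2] at h2
    simpa using h2
  choose g hg hmin using h1
  have hmono : Monotone (fun n => ‖g n‖) := fun n k hnk => hmin n _ (hanti hnk (hg k))
  have hbdd : BddAbove (range fun n => ‖g n‖) :=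
    ⟨B, by rintro _ ⟨n, rfl⟩; exact hB _ (hanti (Nat.zero_le n) (hg n))⟩
  have hpar : ∀ n k, n ≤ k → ‖g n - g k‖ ^ 2 ≤ 2 * ‖g k‖ ^ 2 - 2 * ‖g n‖ ^ 2 := by
    intro n k hnk
    have hmid : (1 / 2 : ℝ) • g n + (1 / 2 : ℝ) • g k ∈ C n :=
      hcv n (hg n) (hanti hnk (hg k)) (by norm_num) (by norm_num) (by norm_num)
    have h2 := hmin n _ hmid
    rw [← smul_add, norm_smul] at h2
    have h3 := parallelogram_law_with_norm ℝ (g n) (g k)
    have h4 : ‖(1 / 2 : ℝ)‖ = 1 / 2 := by norm_num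
    rw [h4] at h2
    have h5 : 0 ≤ ‖g n‖ := norm_nonneg _
    nlinarith
  have hlim := tendsto_atTop_ciSup hmono hbdd
  obtain ⟨L, hL⟩ : ∃ L : ℝ, L = ⨆ n, ‖g n‖ := ⟨_, rfl⟩
  rw [← hL] at hlim
  have hle : ∀ n, ‖g n‖ ≤ L := fun n => by rw [hL]; exact le_ciSup hbdd n
  have hcau : CauchySeq g := by
    rw [Metric.cauchySeq_iff']
    intro ε hε
    have h2 : Tendsto (fun n => 2 * L ^ 2 - 2 * ‖g n‖ ^ 2) atTop (𝓝 (2 * L ^ 2 - 2 * L ^ 2)) :=
      ((hlim.pow 2).const_mul 2).const_sub _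
    rw [sub_self] at h2
    obtain ⟨N, hN⟩ := (h2.eventually (gt_mem_nhds (show (0 : ℝ) < ε ^ 2 by positivity))).exists
    refine ⟨N, fun n hn => ?_⟩
    rw [dist_comm, dist_eq_norm]
    have h3 := hpar N n hn
    have h4 : ‖g n‖ ^ 2 ≤ L ^ 2 := by
      have := hle n
      have := norm_nonneg (g n)
      nlinarith
    have h5 : ‖g N - g n‖ ^ 2 < ε ^ 2 := by linarith
    exact lt_of_pow_lt_pow_left₀ 2 hε.le h5
  obtain ⟨x, hx⟩ := cauchySeq_tendsto_of_complete hcau
  refine ⟨x, fun n => ?_⟩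
  refine (hcl n).mem_of_tendsto hx ?_
  filter_upwards [eventually_ge_atTop n] with k hk
  exact hanti hk (hg k)

/-- the Hilbert space -/
noncomputable abbrev H2 := Lp ℝ 2 (volume : Measure E3)

/-- nice representative -/
noncomputable def rep (Q : Set E3) (g : H2) : E3 → ℝ :=
  Q.indicator (fun y => max 0 (min 1 (g y)))

theorem rep_adm {R : ℝ} {Q : Set E3} (hQ : MeasurableSet Q) (hQR : Q ⊆ Metric.closedBall 0 R)
    (g : H2) : Adm R Q (rep Q g) where
  nice :=
    { meas := by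
        unfold rep
        exact (measurable_const.max (measurable_const.min (Lp.stronglyMeasurable g).measurable)).indicator hQ
      nonneg := fun y => by
        unfold rep
        exact indicator_nonneg (fun _ _ => le_max_left _ _) y
      le_one := fun y => by
        unfold rep
        exact indicator_le' (fun _ _ => max_le zero_le_one (min_le_left _ _)) (fun _ _ => zero_le_one) y
      supp := fun y hy => by
        unfold rep
        apply indicator_of_notMem
        intro h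
        have := hQR h
        rw [mem_closedBall_zero_iff] at this
        linarith }
  off := fun y hy => indicator_of_notMem hy _

theorem clip_lip (a b : ℝ) : |max 0 (min 1 a) - max 0 (min 1 b)| ≤ |a - b| := by
  have h1 := abs_max_sub_max_le_max 0 (min 1 a) 0 (min 1 b)
  have h2 := abs_min_sub_min_le_max 1 a 1 b
  simp only [sub_self, abs_zero] at h1 h2
  refine h1.trans (max_le (abs_nonneg _) (h2.trans (max_le (abs_nonneg _) le_rfl)))

theorem rep_lip {R c : ℝ} {Q : Set E3} (hQ : MeasurableSet Q) (hQR : Q ⊆ Metric.closedBall 0 R)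
    (hfin : volume Q ≠ ∞) (f g : H2) :
    |JJ c (rep Q f) - JJ c (rep Q g)| ≤
      |(MM R + |c|)| * (‖f - g‖ * ‖indicatorConstLp 2 hQ hfin (1 : ℝ)‖) := by
  refine (JJ_lip (rep_adm hQ hQR f).nice (rep_adm hQ hQR g).nice).trans ?_
  have hI : 0 ≤ ∫ y, |rep Q f y - rep Q g y| := integral_nonneg fun y => abs_nonneg _
  refine (mul_le_mul_of_nonneg_right (le_abs_self _) hI).trans ?_
  refine mul_le_mul_of_nonneg_left ?_ (abs_nonneg _)
  have h1 := real_inner_le_norm (|f - g| : H2) (indicatorConstLp 2 hQ hfin (1 : ℝ))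
  rw [norm_abs_eq_norm, L2.inner_def] at h1
  refine le_trans ?_ h1
  have hint := L2.integrable_inner (𝕜 := ℝ) (|f - g| : H2) (indicatorConstLp 2 hQ hfin (1 : ℝ))
  refine integral_mono_of_nonneg (Eventually.of_forall fun y => ?_) hint ?_
  · simp only [Pi.zero_apply]
    exact abs_nonneg _
  · filter_upwards [indicatorConstLp_coeFn (p := 2) (hs := hQ) (hμs := hfin) (c := (1 : ℝ)),
      Lp.coeFn_abs (f - g), Lp.coeFn_sub f g] with y h2 h3 h4
    rw [h2, h3, h4]
    simp only [Pi.sub_apply]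
    unfold rep
    by_cases hy : y ∈ Q
    · rw [indicator_of_mem hy, indicator_of_mem hy, indicator_of_mem hy]
      have h5 : inner ℝ |f y - g y| (1 : ℝ) = |f y - g y| := by simp
      rw [h5]
      exact clip_lip _ _
    · rw [indicator_of_notMem hy, indicator_of_notMem hy, indicator_of_notMem hy]
      simp

/-- the admissible set in the Hilbert space -/
noncomputable def KK {Q : Set E3} (hQ : MeasurableSet Q) (hfin : volume Q ≠ ∞) : Set H2 :=
  Icc 0 (indicatorConstLp 2 hQ hfin (1 : ℝ))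

theorem mem_KK {Q : Set E3} (hQ : MeasurableSet Q) (hfin : volume Q ≠ ∞) (g : H2) :
    g ∈ KK hQ hfin ↔ ∀ᵐ y, 0 ≤ g y ∧ g y ≤ Q.indicator (fun _ => (1 : ℝ)) y := by
  unfold KK
  rw [mem_Icc, ← Lp.coeFn_le, ← Lp.coeFn_le]
  constructor
  · rintro ⟨h1, h2⟩
    filter_upwards [h1, h2, Lp.coeFn_zero ℝ 2 (volume : Measure E3),
      indicatorConstLp_coeFn (p := 2) (hs := hQ) (hμs := hfin) (c := (1 : ℝ))] with y a1 a2 a3 a4
    rw [a3] at a1
    rw [a4] at a2
    exact ⟨a1, a2⟩
  · intro h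
    constructor
    · filter_upwards [h, Lp.coeFn_zero ℝ 2 (volume : Measure E3)] with y a1 a3
      rw [a3]
      exact a1.1
    · filter_upwards [h,
        indicatorConstLp_coeFn (p := 2) (hs := hQ) (hμs := hfin) (c := (1 : ℝ))] with y a1 a4
      rw [a4]
      exact a1.2

theorem KK_convex {Q : Set E3} (hQ : MeasurableSet Q) (hfin : volume Q ≠ ∞) :
    Convex ℝ (KK hQ hfin) := by
  intro f hf g hg s t hs ht hst
  rw [mem_KK] at hf hg ⊢
  filter_upwards [hf, hg, Lp.coeFn_add (s • f) (t • g), Lp.coeFn_smul s f, Lp.coeFn_smul t g]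
    with y h1 h2 h3 h4 h5
  rw [h3, Pi.add_apply, h4, h5]
  simp only [Pi.smul_apply, smul_eq_mul]
  have a1 := mul_nonneg hs h1.1
  have a2 := mul_nonneg ht h2.1
  have a3 := mul_le_mul_of_nonneg_left h1.2 hs
  have a4 := mul_le_mul_of_nonneg_left h2.2 ht
  refine ⟨by linarith, ?_⟩
  have : s * Q.indicator (fun _ => (1 : ℝ)) y + t * Q.indicator (fun _ => (1 : ℝ)) y =
      Q.indicator (fun _ => (1 : ℝ)) y := by rw [← add_mul, hst, one_mul]
  linarith

theorem rep_ae {Q : Set E3} (hQ : MeasurableSet Q) (hfin : volume Q ≠ ∞) {g : H2}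
    (hg : g ∈ KK hQ hfin) : rep Q g =ᵐ[volume] g := by
  rw [mem_KK] at hg
  filter_upwards [hg] with y hy
  unfold rep
  by_cases h : y ∈ Q
  · rw [indicator_of_mem h] at hy ⊢
    rw [min_eq_right hy.2, max_eq_right hy.1]
  · rw [indicator_of_notMem h] at hy ⊢
    linarith [hy.1, hy.2]

theorem JJ_congr {c : ℝ} {f g : E3 → ℝ} (h : f =ᵐ[volume] g) : JJ c f = JJ c g := by
  unfold JJ BB
  rw [integral_congr_ae h]
  congr 2
  apply integral_congr_ae
  filter_upwards [h] with y hy
  rw [hy, V_congr h]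

theorem JJ_lower {R c : ℝ} {f : E3 → ℝ} (hf : Nice R f) :
    -(|c| * (volume (Metric.closedBall (0 : E3) R)).toReal) ≤ JJ c f := by
  unfold JJ
  have h1 := BB_nonneg hf hf
  have h2 := integral_le_vol hf
  have h3 : 0 ≤ ∫ y, f y := integral_nonneg hf.nonneg
  have h4 : c * ∫ y, f y ≤ |c| * ∫ y, f y := mul_le_mul_of_nonneg_right (le_abs_self c) h3
  have h5 : |c| * ∫ y, f y ≤ |c| * (volume (Metric.closedBall (0 : E3) R)).toReal :=
    mul_le_mul_of_nonneg_left h2 (abs_nonneg c)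
  linarith

theorem exists_min {R : ℝ} (c : ℝ) {Q : Set E3} (hQ : MeasurableSet Q)
    (hQR : Q ⊆ Metric.closedBall 0 R) :
    ∃ η, Adm R Q η ∧ ∀ h, Adm R Q h → JJ c η ≤ JJ c h := by
  have hfin : volume Q ≠ ∞ :=
    ((measure_mono hQR).trans_lt Metric.isBounded_closedBall.measure_lt_top).ne
  obtain ⟨S, hS⟩ : ∃ S : Set ℝ, S = {r | ∃ h, Adm R Q h ∧ r = JJ c h} := ⟨_, rfl⟩
  have hSne : S.Nonempty := ⟨_, by rw [hS]; exact ⟨_, rep_adm hQ hQR 0, rfl⟩⟩
  have hSb : BddBelow S := ⟨-(|c| * (volume (Metric.closedBall (0 : E3) R)).toReal), by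
    rw [hS]
    rintro _ ⟨h, hh, rfl⟩
    exact JJ_lower hh.nice⟩
  obtain ⟨m, hm⟩ : ∃ m : ℝ, m = sInf S := ⟨_, rfl⟩
  let C : ℕ → Set H2 := fun n => KK hQ hfin ∩ {g | JJ c (rep Q g) ≤ m + 1 / ((n : ℝ) + 1)}
  have hLc : Continuous (fun g : H2 => JJ c (rep Q g)) := by
    obtain ⟨A, hA⟩ : ∃ A : ℝ, A = |(MM R + |c|)| * ‖indicatorConstLp (μ := (volume : Measure E3)) 2 hQ hfin (1 : ℝ)‖ :=
      ⟨_, rfl⟩
    have hA0 : 0 ≤ A := by rw [hA]; positivity
    have : LipschitzWith (Real.toNNReal A) (fun g : H2 => JJ c (rep Q g)) := by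
      refine LipschitzWith.of_dist_le_mul fun f g => ?_
      rw [Real.dist_eq, dist_eq_norm]
      refine (rep_lip hQ hQR hfin f g).trans (le_of_eq ?_)
      rw [Real.coe_toNNReal _ hA0, hA]
      ring
    exact this.continuous
  have hmem : ∀ h, Adm R Q h → ∃ g ∈ KK hQ hfin, JJ c (rep Q g) = JJ c h := by
    intro h hh
    have hL2 : MemLp h 2 (volume : Measure E3) := by
      refine (memLp_indicator_const 2 hQ (1 : ℝ) (Or.inr hfin)).mono hh.nice.meas.aestronglyMeasurable
        (Eventually.of_forall fun y => ?_)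
      rw [Real.norm_of_nonneg (hh.nice.nonneg y)]
      by_cases hy : y ∈ Q
      · rw [indicator_of_mem hy]
        simpa using hh.nice.le_one y
      · rw [hh.off y hy]
        exact norm_nonneg _
    have hae := MemLp.coeFn_toLp hL2
    have hK : hL2.toLp h ∈ KK hQ hfin := by
      rw [mem_KK]
      filter_upwards [hae] with y hy
      rw [hy]
      refine ⟨hh.nice.nonneg y, ?_⟩
      by_cases hyQ : y ∈ Q
      · rw [indicator_of_mem hyQ]
        exact hh.nice.le_one y
      · rw [indicator_of_notMem hyQ, hh.off y hyQ]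
    exact ⟨_, hK, JJ_congr ((rep_ae hQ hfin hK).trans hae)⟩
  have hh1 : ∀ n, (C n).Nonempty := by
    intro n
    obtain ⟨r, hr, hr2⟩ := exists_lt_of_csInf_lt hSne (show sInf S < m + 1 / ((n : ℝ) + 1) by
      rw [hm]
      have : (0 : ℝ) < 1 / ((n : ℝ) + 1) := by positivity
      linarith)
    rw [hS] at hr
    obtain ⟨h, hh, rfl⟩ := hr
    obtain ⟨g, hg, hg2⟩ := hmem h hh
    exact ⟨g, hg, by change JJ c (rep Q g) ≤ _; rw [hg2]; exact hr2.le⟩
  have hh2 : ∀ n, IsClosed (C n) := by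
    intro n
    exact IsClosed.inter (by unfold KK; exact isClosed_Icc) (isClosed_le hLc continuous_const)
  have hh3 : ∀ n, Convex ℝ (C n) := by
    intro n f hf g hg s t hs ht hst
    refine ⟨KK_convex hQ hfin hf.1 hg.1 hs ht hst, ?_⟩
    have hf2 : JJ c (rep Q f) ≤ m + 1 / ((n : ℝ) + 1) := hf.2
    have hg2 : JJ c (rep Q g) ≤ m + 1 / ((n : ℝ) + 1) := hg.2
    change JJ c (rep Q (s • f + t • g)) ≤ m + 1 / ((n : ℝ) + 1)
    have h1 : rep Q (s • f + t • g) =ᵐ[volume] fun y => s * rep Q f y + t * rep Q g y := by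
      filter_upwards [rep_ae hQ hfin (KK_convex hQ hfin hf.1 hg.1 hs ht hst), rep_ae hQ hfin hf.1,
        rep_ae hQ hfin hg.1, Lp.coeFn_add (s • f) (t • g), Lp.coeFn_smul s f, Lp.coeFn_smul t g]
        with y a1 a2 a3 a4 a5 a6
      rw [a1, a2, a3, a4, Pi.add_apply, a5, a6]
      simp
    rw [JJ_congr h1]
    refine (JJ_convex (rep_adm hQ hQR f).nice (rep_adm hQ hQR g).nice hs ht hst).trans ?_
    have b1 := mul_le_mul_of_nonneg_left hf2 hs
    have b2 := mul_le_mul_of_nonneg_left hg2 ht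
    have b3 : s * (m + 1 / ((n : ℝ) + 1)) + t * (m + 1 / ((n : ℝ) + 1)) = m + 1 / ((n : ℝ) + 1) := by
      rw [← add_mul, hst, one_mul]
    linarith
  have hh4 : Antitone C := by
    intro n k hnk g hg
    refine ⟨hg.1, ?_⟩
    have h1 : JJ c (rep Q g) ≤ m + 1 / ((k : ℝ) + 1) := hg.2
    change JJ c (rep Q g) ≤ m + 1 / ((n : ℝ) + 1)
    have h2 : 1 / ((k : ℝ) + 1) ≤ 1 / ((n : ℝ) + 1) := by
      apply one_div_le_one_div_of_le (by positivity)
      have : (n : ℝ) ≤ k := by exact_mod_cast hnk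
      linarith
    linarith
  have hh5 : ∀ g ∈ C 0, ‖g‖ ≤ ‖indicatorConstLp (μ := (volume : Measure E3)) 2 hQ hfin (1 : ℝ)‖ := by
    intro g hg
    have h1 := hg.1
    unfold KK at h1
    apply norm_le_norm_of_abs_le_abs
    rw [abs_of_nonneg h1.1, abs_of_nonneg (h1.1.trans h1.2)]
    exact h1.2
  obtain ⟨g, hg⟩ := hilbert_nested C hh1 hh2 hh3 hh4 _ hh5
  refine ⟨rep Q g, rep_adm hQ hQR g, fun h hh => ?_⟩
  have h1 : JJ c (rep Q g) ≤ m := by
    refine le_of_forall_pos_le_add fun ε hε => ?_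
    obtain ⟨n, hn⟩ := exists_nat_one_div_lt hε
    have : JJ c (rep Q g) ≤ m + 1 / ((n : ℝ) + 1) := (hg n).2
    linarith
  have h2 : m ≤ JJ c h := by
    rw [hm]
    exact csInf_le hSb (by rw [hS]; exact ⟨h, hh, rfl⟩)
  exact h1.trans h2

theorem var_ineq {R c : ℝ} {Q : Set E3} {η : E3 → ℝ} (hη : Adm R Q η)
    (hmin : ∀ h, Adm R Q h → JJ c η ≤ JJ c h) {h : E3 → ℝ} (hh : Adm R Q h) :
    0 ≤ ∫ y, (h y - η y) * (V η y - c) := by
  have e1 : ∫ y, (h y - η y) * (V η y - c) = BB η h - BB η η - c * (∫ y, h y) + c * ∫ y, η y := by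
    have e2 : ∫ y, (h y - η y) * (V η y - c) =
        ∫ y, ((h y * V η y - η y * V η y) - (c * h y - c * η y)) := by
      refine integral_congr_ae (Eventually.of_forall fun y => ?_)
      simp only
      ring
    have i1 := BB_integrable hh.nice hη.nice
    have i2 := BB_integrable hη.nice hη.nice
    have i3 := hh.nice.integrable_self.const_mul c
    have i4 := hη.nice.integrable_self.const_mul c
    have e3 : ∫ y, ((h y * V η y - η y * V η y) - (c * h y - c * η y)) =
        (∫ y, (h y * V η y - η y * V η y)) - ∫ y, (c * h y - c * η y) :=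
      integral_sub (i1.sub i2) (i3.sub i4)
    have e4 : ∫ y, (h y * V η y - η y * V η y) = (∫ y, h y * V η y) - ∫ y, η y * V η y :=
      integral_sub i1 i2
    have e5 : ∫ y, (c * h y - c * η y) = (∫ y, c * h y) - ∫ y, c * η y := integral_sub i3 i4
    have e6 : ∫ y, h y * V η y = BB h η := rfl
    have e7 : ∫ y, η y * V η y = BB η η := rfl
    rw [e2, e3, e4, e5, integral_const_mul, integral_const_mul, e6, e7, BB_symm hh.nice hη.nice]
    ring
  rw [e1]
  obtain ⟨D, hD⟩ : ∃ D : ℝ, D = BB η h - BB η η - c * (∫ y, h y) + c * ∫ y, η y := ⟨_, rfl⟩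
  obtain ⟨E, hE⟩ : ∃ E : ℝ, E = 1 / 2 * (BB η η - 2 * BB η h + BB h h) := ⟨_, rfl⟩
  rw [← hD]
  have hkey : ∀ t : ℝ, 0 < t → t ≤ 1 → 0 ≤ D + t * E := by
    intro t ht ht1
    have h1 : Adm R Q (fun y => (1 - t) * η y + t * h y) :=
      ⟨hη.nice.comb hh.nice (by linarith) ht.le (by ring), fun y hy => by
        rw [hη.off y hy, hh.off y hy]; ring⟩
    have h2 := hmin _ h1
    have h3 : JJ c (fun y => (1 - t) * η y + t * h y) = JJ c η + t * (D + t * E) := by
      unfold JJ
      rw [BB_comb hη.nice hh.nice, int_comb hη.nice hh.nice, hD, hE]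
      ring
    rw [h3] at h2
    have h4 : 0 ≤ t * (D + t * E) := by linarith
    exact nonneg_of_mul_nonneg_right h4 ht
  have hlim : Tendsto (fun t : ℝ => D + t * E) (𝓝[>] 0) (𝓝 (D + 0 * E)) := by
    apply Tendsto.mono_left _ nhdsWithin_le_nhds
    exact (continuous_const.add (continuous_id.mul continuous_const)).tendsto 0
  rw [zero_mul, add_zero] at hlim
  refine ge_of_tendsto hlim ?_
  filter_upwards [Ioc_mem_nhdsGT (show (0 : ℝ) < 1 by norm_num)] with t ht
  exact hkey t ht.1 ht.2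

/-- solution of the obstacle problem -/
theorem exists_obst {R : ℝ} (c : ℝ) {Q : Set E3} (hQ : MeasurableSet Q)
    (hQR : Q ⊆ Metric.closedBall 0 R) :
    ∃ η, Adm R Q η ∧ (∀ᵐ y, y ∈ Q → V η y < c → η y = 1) ∧
      (∀ᵐ y, y ∈ Q → c < V η y → η y = 0) := by
  obtain ⟨η, hη, hmin⟩ := exists_min c hQ hQR
  refine ⟨η, hη, ?_⟩
  have hVc := V_cont hη.nice
  have hA : MeasurableSet (Q ∩ {y | V η y < c}) :=
    hQ.inter (measurableSet_lt hVc.measurable measurable_const)
  have hB : MeasurableSet (Q ∩ {y | c < V η y}) :=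
    hQ.inter (measurableSet_lt measurable_const hVc.measurable)
  classical
  obtain ⟨h, hh⟩ : ∃ h : E3 → ℝ, h = fun y => if y ∈ Q ∩ {y | V η y < c} then 1 else
    if y ∈ Q ∩ {y | c < V η y} then 0 else η y := ⟨_, rfl⟩
  have hadm : Adm R Q h := by
    refine ⟨⟨?_, fun y => ?_, fun y => ?_, fun y hy => ?_⟩, fun y hy => ?_⟩
    · rw [hh]
      exact Measurable.ite hA measurable_const (Measurable.ite hB measurable_const hη.nice.meas)
    · rw [hh]
      simp only
      split_ifs
      · norm_num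
      · norm_num
      · exact hη.nice.nonneg y
    · rw [hh]
      simp only
      split_ifs
      · norm_num
      · norm_num
      · exact hη.nice.le_one y
    · have hyQ : y ∉ Q := fun h => by
        have := hQR h
        rw [mem_closedBall_zero_iff] at this
        linarith
      rw [hh]
      simp only
      rw [if_neg (fun h => hyQ h.1), if_neg (fun h => hyQ h.1), hη.off y hyQ]
    · rw [hh]
      simp only
      rw [if_neg (fun h => hy h.1), if_neg (fun h => hy h.1), hη.off y hy]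
  have h1 := var_ineq hη hmin hadm
  have hle : ∀ y, (h y - η y) * (V η y - c) ≤ 0 := by
    intro y
    rw [hh]
    simp only
    split_ifs with g1 g2
    · have g3 : V η y < c := g1.2
      have := hη.nice.le_one y
      nlinarith
    · have g3 : c < V η y := g2.2
      have := hη.nice.nonneg y
      nlinarith
    · simp
  have hint : Integrable (fun y => (h y - η y) * (V η y - c)) := by
    have e : (fun y => (h y - η y) * (V η y - c)) =
        fun y => ((h y * V η y - η y * V η y) - (c * h y - c * η y)) := by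
      funext y
      ring
    rw [e]
    exact ((BB_integrable hadm.nice hη.nice).sub (BB_integrable hη.nice hη.nice)).sub
      ((hadm.nice.integrable_self.const_mul c).sub (hη.nice.integrable_self.const_mul c))
  have h2 : ∫ y, -((h y - η y) * (V η y - c)) = 0 := by
    apply le_antisymm
    · rw [integral_neg]
      linarith
    · exact integral_nonneg fun y => by
        simp only [Pi.zero_apply]
        linarith [hle y]
  have h3 : (fun y => -((h y - η y) * (V η y - c))) =ᵐ[volume] 0 := by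
    refine (integral_eq_zero_iff_of_nonneg (fun y => ?_) hint.neg).1 h2
    change 0 ≤ -((h y - η y) * (V η y - c))
    linarith [hle y]
  constructor
  · filter_upwards [h3] with y hy hyQ hlt
    simp only [Pi.zero_apply, neg_eq_zero] at hy
    rw [hh] at hy
    simp only at hy
    have hm : y ∈ Q ∩ {y | V η y < c} := ⟨hyQ, hlt⟩
    rw [if_pos hm] at hy
    rcases mul_eq_zero.1 hy with h | h
    · linarith
    · linarith
  · filter_upwards [h3] with y hy hyQ hlt
    simp only [Pi.zero_apply, neg_eq_zero] at hy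
    rw [hh] at hy
    simp only at hy
    have hm1 : y ∉ Q ∩ {y | V η y < c} := fun h => by
      have : V η y < c := h.2
      linarith
    have hm2 : y ∈ Q ∩ {y | c < V η y} := ⟨hyQ, hlt⟩
    rw [if_neg hm1, if_pos hm2] at hy
    rcases mul_eq_zero.1 hy with h | h
    · linarith
    · linarith

end Pool.Agent.TH331.Cav
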