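import Pool.Agent.TH331.Cav.C6

set_option autoImplicit false
open MeasureTheory Set Filter Topology
open scoped ENNReal

namespace Pool.Agent.TH331.Cav

/-- reflection in the plane `⟪x,v⟫ = τ` -/
noncomputable def rf (v : E3) (τ : ℝ) (x : E3) : E3 :=
  x - (2 * (inner ℝ v x - τ) / ‖v‖ ^ 2) • v

theorem rf_eq (v : E3) (τ : ℝ) (x : E3) :
    rf v τ x = (ℝ ∙ v)ᗮ.reflection x + (2 * τ / ‖v‖ ^ 2) • v := by
  rw [Submodule.reflection_orthogonal_apply, Submodule.reflection_singleton_apply]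
  unfold rf
  simp only [RCLike.ofReal_real_eq_id, id_eq]
  rw [two_smul]
  module

theorem rf_norm_sub (v : E3) (τ : ℝ) (x y : E3) : ‖rf v τ x - rf v τ y‖ = ‖x - y‖ := by
  rw [rf_eq, rf_eq, add_sub_add_right_eq_sub, ← map_sub, LinearIsometryEquiv.norm_map]

theorem rf_mp (v : E3) (τ : ℝ) : MeasurePreserving (rf v τ) (volume : Measure E3) volume := by
  have h1 : rf v τ = (fun x => x + (2 * τ / ‖v‖ ^ 2) • v) ∘ ((ℝ ∙ v)ᗮ.reflection) := by
    funext x
    rw [rf_eq]
    rfl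
  rw [h1]
  exact (measurePreserving_add_right volume _).comp (LinearIsometryEquiv.measurePreserving _)

theorem rf_rf {v : E3} (hv : v ≠ 0) (τ : ℝ) (x : E3) : rf v τ (rf v τ x) = x := by
  have hv' : ‖v‖ ^ 2 ≠ 0 := by positivity
  have h2 : inner ℝ v v = ‖v‖ ^ 2 := real_inner_self_eq_norm_sq v
  unfold rf
  rw [inner_sub_right, inner_smul_right, h2, sub_sub, ← add_smul]
  have : 2 * (inner ℝ v x - τ) / ‖v‖ ^ 2 + 2 * (inner ℝ v x - 2 * (inner ℝ v x - τ) / ‖v‖ ^ 2 *
      ‖v‖ ^ 2 - τ) / ‖v‖ ^ 2 = 0 := by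
    field_simp
    ring
  rw [this, zero_smul, sub_zero]

theorem rf_cont (v : E3) (τ : ℝ) : Continuous (rf v τ) := by
  unfold rf
  fun_prop

theorem rf_me {v : E3} (hv : v ≠ 0) (τ : ℝ) : MeasurableEmbedding (rf v τ) := by
  have h1 : IsHomeomorph (rf v τ) := by
    rw [isHomeomorph_iff_exists_inverse]
    exact ⟨rf_cont v τ, rf v τ, rf_rf hv τ, rf_rf hv τ, rf_cont v τ⟩
  exact h1.isClosedEmbedding.measurableEmbedding

theorem V_rf {v : E3} (hv : v ≠ 0) (τ : ℝ) (a : E3 → ℝ) (x : E3) :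
    V (fun y => a (rf v τ y)) x = V a (rf v τ x) := by
  have h := (rf_mp v τ).integral_comp (rf_me hv τ) (fun y => a y * ‖rf v τ x - y‖⁻¹)
  simp only [rf_norm_sub] at h
  exact h

theorem rf_nice {R : ℝ} {v : E3} {a : E3 → ℝ} (ha : Nice R a) (τ : ℝ) :
    Nice (R + ‖rf v τ 0‖) (fun y => a (rf v τ y)) where
  meas := ha.meas.comp (rf_cont v τ).measurable
  nonneg y := ha.nonneg _
  le_one y := ha.le_one _
  supp y hy := by
    apply ha.supp
    have h1 := rf_norm_sub v τ y 0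
    have h2 := norm_sub_le (rf v τ y) (rf v τ 0)
    rw [sub_zero] at h1
    linarith

/-- solutions of the obstacle problem -/
structure Obs (c : ℝ) (Q : Set E3) (η : E3 → ℝ) : Prop where
  adm : Adm 2 Q η
  cpos : 0 ≤ c
  h1 : ∀ᵐ y, y ∈ Q → V η y < c → η y = 1
  h2 : ∀ᵐ y, y ∈ Q → c < V η y → η y = 0

theorem Obs.le {c : ℝ} {Q : Set E3} {η : E3 → ℝ} (h : Obs c Q η) (x : E3) : V η x ≤ c := by
  have hz : Nice 2 (fun _ : E3 => (0 : ℝ)) :=
    ⟨measurable_const, fun _ => le_refl _, fun _ => zero_le_one, fun _ _ => rfl⟩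
  have hV0 : ∀ x, V (fun _ : E3 => (0 : ℝ)) x = 0 := by
    intro x
    unfold V
    simp
  have hVc := V_cont h.adm.nice
  have := min_principle hz h.adm.nice h.cpos (D := univ) isOpen_univ (by simp) (by
    intro x _ hx
    rw [hV0] at hx
    have ho : IsOpen {y | c < V η y} := isOpen_lt continuous_const hVc
    obtain ⟨ρ, hρ, hb⟩ := Metric.isOpen_iff.1 ho x (by change c < V η x; linarith)
    refine ⟨ρ, hρ, ?_⟩
    filter_upwards [h.h2] with y hy hyb
    by_cases hyQ : y ∈ Q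
    · rw [hy hyQ (hb hyb)]
    · rw [h.adm.off y hyQ]) x (mem_univ x)
  rw [hV0] at this
  linarith

theorem Obs.refl {c : ℝ} {Q : Set E3} {η : E3 → ℝ} (h : Obs c Q η) {v : E3} (hv : v ≠ 0) (τ : ℝ)
    (hQ : ∀ x ∈ Q, τ < inner ℝ v x → rf v τ x ∈ Q) {x : E3} (hx : τ < inner ℝ v x) :
    V η x ≤ V η (rf v τ x) := by
  have hb := h.adm.nice
  have ha := rf_nice (v := v) hb τ
  have hD : IsOpen {x : E3 | τ < inner ℝ v x} := isOpen_lt continuous_const (by fun_prop)
  have hVc := V_cont hb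
  have := min_principle ha hb (le_refl (0 : ℝ)) (D := {x : E3 | τ < inner ℝ v x}) hD (by
    intro y hy
    rw [V_rf hv]
    have h1 : inner ℝ v y = τ := by
      have := frontier_lt_subset_eq (f := fun _ : E3 => τ) (g := fun x : E3 => inner ℝ v x)
        continuous_const (by fun_prop) hy
      exact this.symm
    have h2 : rf v τ y = y := by
      unfold rf
      rw [h1]
      simp
    rw [h2]
    linarith) (by
    intro y hy hneg
    rw [V_rf hv] at hneg
    have ho : IsOpen ({x : E3 | τ < inner ℝ v x} ∩ {z | V η (rf v τ z) < V η z}) :=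
      hD.inter (isOpen_lt (hVc.comp (rf_cont v τ)) hVc)
    obtain ⟨ρ, hρ, hball⟩ := Metric.isOpen_iff.1 ho y ⟨hy, by
      change V η (rf v τ y) < V η y
      linarith⟩
    refine ⟨ρ, hρ, ?_⟩
    have h3 := (rf_mp v τ).quasiMeasurePreserving.ae h.h1
    filter_upwards [h3] with z hz hzb
    obtain ⟨g1, g2⟩ := hball hzb
    by_cases hzQ : z ∈ Q
    · have g3 : V η (rf v τ z) < V η z := g2
      rw [hz (hQ z hzQ g1) (lt_of_lt_of_le g3 (h.le z))]
      exact hb.le_one z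
    · rw [h.adm.off z hzQ]
      exact hb.nonneg _) x hx
  rw [V_rf hv] at this
  linarith

end Pool.Agent.TH331.Cav
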