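import Pool.Agent.TH331.Cav.C1

set_option autoImplicit false
open MeasureTheory Set Filter Topology
open scoped ENNReal Pointwise

namespace Pool.Agent.TH331.Cav

/-- continuous positively homogeneous functions, positive away from the origin -/
structure Gau (g : E3 → ℝ) : Prop where
  cont : Continuous g
  hom : ∀ (r : ℝ) (x : E3), 0 ≤ r → g (r • x) = r * g x
  pos : ∀ x, x ≠ 0 → 0 < g x

theorem Gau.zero {g : E3 → ℝ} (h : Gau g) : g 0 = 0 := by
  have := h.hom 0 0 le_rfl
  simpa using this

theorem Gau.homeo {g : E3 → ℝ} (h : Gau g) :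
    Nonempty ({x | g x = 1} ≃ₜ Metric.sphere (0 : E3) 1) := by
  have hne : ∀ x : {x | g x = 1}, (x : E3) ≠ 0 := by
    rintro ⟨x, hx⟩ h0
    have hx' : g x = 1 := hx
    simp only at h0
    rw [h0, h.zero] at hx'
    norm_num at hx'
  have hne2 : ∀ u : Metric.sphere (0 : E3) 1, (u : E3) ≠ 0 := fun u => by
    intro h0
    have := u.2
    rw [h0] at this
    simp at this
  refine ⟨⟨⟨fun x => ⟨‖(x : E3)‖⁻¹ • (x : E3), ?_⟩, fun u => ⟨(g (u : E3))⁻¹ • (u : E3), ?_⟩, ?_, ?_⟩,
    ?_, ?_⟩⟩
  · have := norm_ne_zero_iff.2 (hne x)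
    rw [mem_sphere_zero_iff_norm, norm_smul, norm_inv, norm_norm, inv_mul_cancel₀ this]
  · have := h.pos _ (hne2 u)
    change g _ = 1
    rw [h.hom _ _ (by positivity), inv_mul_cancel₀ this.ne']
  · intro x
    apply Subtype.ext
    have h1 : 0 < ‖(x : E3)‖ := norm_pos_iff.2 (hne x)
    have h2 : g (x : E3) = 1 := x.2
    simp only
    rw [h.hom _ _ (by positivity), h2, mul_one, inv_inv, smul_smul, mul_inv_cancel₀ h1.ne', one_smul]
  · intro u
    apply Subtype.ext
    have h1 := h.pos _ (hne2 u)
    have h2 : ‖(u : E3)‖ = 1 := by simpa using u.2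
    simp only
    rw [norm_smul, h2, mul_one, norm_inv, inv_inv, Real.norm_of_nonneg h1.le, smul_smul,
      mul_inv_cancel₀ h1.ne', one_smul]
  · apply Continuous.subtype_mk
    exact (continuous_subtype_val.norm.inv₀ fun x => norm_ne_zero_iff.2 (hne x)).smul
      continuous_subtype_val
  · apply Continuous.subtype_mk
    exact ((h.cont.comp continuous_subtype_val).inv₀ fun u => (h.pos _ (hne2 u)).ne').smul
      continuous_subtype_val

theorem Gau.isOpen {g : E3 → ℝ} (h : Gau g) : IsOpen {x | g x < 1} :=
  isOpen_lt h.cont continuous_const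

theorem Gau.connected {g : E3 → ℝ} (h : Gau g) : IsConnected {x | g x < 1} := by
  have hs : StarConvex ℝ 0 {x | g x < 1} := by
    rw [starConvex_zero_iff]
    intro x hx a ha ha1
    change g (a • x) < 1
    have hx' : g x < 1 := hx
    rw [h.hom _ _ ha]
    by_cases hx0 : x = 0
    · rw [hx0, h.zero]; norm_num
    · have := h.pos x hx0
      nlinarith
  exact (hs.isPathConnected (by change g 0 < 1; rw [h.zero]; norm_num)).isConnected

theorem Gau.lower {g : E3 → ℝ} (h : Gau g) : ∃ m > 0, ∀ x, m * ‖x‖ ≤ g x := by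
  have hc : IsCompact (Metric.sphere (0 : E3) 1) := isCompact_sphere _ _
  obtain ⟨u, hu, hmin⟩ := hc.exists_isMinOn ⟨EuclideanSpace.single 0 1, by simp⟩ h.cont.continuousOn
  have hu0 : u ≠ 0 := by
    rintro rfl
    simp at hu
  refine ⟨g u, h.pos u hu0, fun x => ?_⟩
  by_cases hx : x = 0
  · rw [hx, h.zero]; simp
  · have hx' : 0 < ‖x‖ := norm_pos_iff.2 hx
    have h1 : g u ≤ g (‖x‖⁻¹ • x) := hmin (by
      rw [mem_sphere_zero_iff_norm, norm_smul, norm_inv, norm_norm, inv_mul_cancel₀ hx'.ne'])
    rw [h.hom _ _ (by positivity), inv_mul_eq_div, le_div_iff₀ hx'] at h1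
    exact h1

theorem Gau.bounded {g : E3 → ℝ} (h : Gau g) (r : ℝ) : Bornology.IsBounded {x | g x ≤ r} := by
  obtain ⟨m, hm, hmg⟩ := h.lower
  rw [isBounded_iff_forall_norm_le]
  refine ⟨r / m, fun x hx => ?_⟩
  have hx' : g x ≤ r := hx
  rw [le_div_iff₀ hm]
  have := hmg x
  linarith

theorem Gau.closure_eq {g : E3 → ℝ} (h : Gau g) : closure {x | g x < 1} = {x | g x ≤ 1} := by
  apply Subset.antisymm
  · apply closure_minimal
    · intro x hx
      have hx' : g x < 1 := hx
      exact hx'.le
    · exact isClosed_le h.cont continuous_const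
  · intro x hx
    have hx' : g x ≤ 1 := hx
    have hlim : Tendsto (fun t : ℝ => t • x) (𝓝[<] 1) (𝓝 ((1 : ℝ) • x)) := by
      apply Tendsto.mono_left _ nhdsWithin_le_nhds
      exact (continuous_id.smul continuous_const).tendsto 1
    rw [one_smul] at hlim
    refine mem_closure_of_tendsto hlim ?_
    filter_upwards [Ioo_mem_nhdsLT (show (0 : ℝ) < 1 by norm_num)] with t ht
    change g (t • x) < 1
    rw [h.hom _ _ ht.1.le]
    have := ht.1
    have := ht.2
    nlinarith

theorem Gau.frontier_eq {g : E3 → ℝ} (h : Gau g) : frontier {x | g x < 1} = {x | g x = 1} := by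
  rw [frontier, h.closure_eq, h.isOpen.interior_eq]
  ext x
  simp only [mem_diff, mem_setOf_eq, not_lt]
  constructor
  · rintro ⟨h1, h2⟩
    exact le_antisymm h1 h2
  · intro h1
    exact ⟨h1.le, h1.ge⟩

theorem Gau.null {g : E3 → ℝ} (h : Gau g) : volume {x | g x = 1} = 0 := by
  obtain ⟨A, hA⟩ : ∃ A, A = volume {x | g x < 1} := ⟨_, rfl⟩
  have hAfin : A ≠ ∞ := by
    rw [hA]
    exact (((h.bounded 1).subset fun x (hx : g x < 1) => hx.le).measure_lt_top).ne
  have hmeas : MeasurableSet {x | g x = 1} := (isClosed_eq h.cont continuous_const).measurableSet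
  have hfin1 : volume {x | g x = 1} ≠ ∞ :=
    (((h.bounded 1).subset fun x (hx : g x = 1) => hx.le).measure_lt_top).ne
  have hunion : volume {x | g x ≤ 1} = A + volume {x | g x = 1} := by
    rw [hA, ← measure_union _ hmeas]
    · congr 1
      ext x
      simp only [mem_union, mem_setOf_eq]
      exact le_iff_lt_or_eq
    · rw [Set.disjoint_left]
      intro x hx hx2
      have h1 : g x < 1 := hx
      have h2 : g x = 1 := hx2
      linarith
  have hscale : ∀ t : ℝ, 1 < t → volume {x | g x ≤ 1} ≤ ENNReal.ofReal (t ^ 3) * A := by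
    intro t ht
    have h1 : {x | g x ≤ 1} ⊆ t • {x | g x < 1} := by
      intro x hx
      have hx' : g x ≤ 1 := hx
      rw [mem_smul_set_iff_inv_smul_mem₀ (by linarith)]
      change g (t⁻¹ • x) < 1
      rw [h.hom _ _ (by positivity), inv_mul_eq_div, div_lt_one (by linarith)]
      linarith
    refine (measure_mono h1).trans ?_
    rw [Measure.addHaar_smul, ← hA]
    have : Module.finrank ℝ E3 = 3 := by simp
    rw [this, abs_of_pos (by positivity)]
  have hlim : Tendsto (fun t : ℝ => ENNReal.ofReal (t ^ 3) * A) (𝓝[>] 1) (𝓝 (ENNReal.ofReal (1 ^ 3) * A)) := by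
    apply Tendsto.mono_left _ nhdsWithin_le_nhds
    apply ENNReal.Tendsto.mul_const _ (Or.inr hAfin)
    exact ENNReal.tendsto_ofReal ((continuous_pow 3).tendsto 1)
  have hle : volume {x | g x ≤ 1} ≤ A := by
    have := ge_of_tendsto hlim (by
      filter_upwards [self_mem_nhdsWithin] with t ht
      exact hscale t ht)
    simpa using this
  rw [hunion] at hle
  by_contra hne
  have : A < A + volume {x | g x = 1} := ENNReal.lt_add_right hAfin hne
  exact absurd hle (not_le.2 this)

/-- strongly star shaped compact sets are unit balls of such functions -/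
theorem exists_gau {T : Set E3} (hT0 : T ∈ 𝓝 (0 : E3)) (hTc : IsClosed T)
    (hTb : Bornology.IsBounded T)
    (hTs : ∀ x ∈ T, ∀ t : ℝ, 0 ≤ t → t < 1 → t • x ∈ interior T) :
    ∃ g : E3 → ℝ, Gau g ∧ interior T = {x | g x < 1} ∧ T = {x | g x ≤ 1} := by
  have habs : Absorbent ℝ T := absorbent_nhds_zero hT0
  have hlt : interior T = {x | gauge T x < 1} := by
    ext x
    constructor
    · intro hx
      have hc : Tendsto (fun t : ℝ => t • x) (𝓝[>] 1) (𝓝 ((1 : ℝ) • x)) := by
        apply Tendsto.mono_left _ nhdsWithin_le_nhds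
        exact (continuous_id.smul continuous_const).tendsto 1
      rw [one_smul] at hc
      have h1 := hc.eventually (isOpen_interior.mem_nhds hx)
      obtain ⟨t, ht1, ht2⟩ := (h1.and self_mem_nhdsWithin).exists
      have ht2' : (1 : ℝ) < t := ht2
      have h2 : gauge T x ≤ t⁻¹ := by
        apply gauge_le_of_mem (by positivity)
        rw [mem_smul_set_iff_inv_smul_mem₀ (by positivity), inv_inv]
        exact interior_subset ht1
      change gauge T x < 1
      exact lt_of_le_of_lt h2 (inv_lt_one_of_one_lt₀ ht2')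
    · intro hx
      obtain ⟨b, hb0, hb1, hxb⟩ := exists_lt_of_gauge_lt habs hx
      obtain ⟨y, hy, rfl⟩ := hxb
      exact hTs y hy b hb0.le hb1
  have hhom : ∀ (r : ℝ) (x : E3), 0 ≤ r → gauge T (r • x) = r * gauge T x := by
    intro r x hr
    rw [gauge_smul_of_nonneg hr, smul_eq_mul]
  have hle : T = {x | gauge T x ≤ 1} := by
    ext x
    constructor
    · intro hx
      change gauge T x ≤ 1
      exact gauge_le_of_mem zero_le_one (by rw [one_smul]; exact hx)
    · intro hx
      have hx' : gauge T x ≤ 1 := hx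
      have hlim : Tendsto (fun t : ℝ => t • x) (𝓝[<] 1) (𝓝 ((1 : ℝ) • x)) := by
        apply Tendsto.mono_left _ nhdsWithin_le_nhds
        exact (continuous_id.smul continuous_const).tendsto 1
      rw [one_smul] at hlim
      refine hTc.mem_of_tendsto hlim ?_
      filter_upwards [Ioo_mem_nhdsLT (show (0 : ℝ) < 1 by norm_num)] with t ht
      apply interior_subset
      rw [hlt]
      change gauge T (t • x) < 1
      rw [hhom _ _ ht.1.le]
      have := ht.1
      have := ht.2
      have h0 : 0 ≤ gauge T x := gauge_nonneg x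
      nlinarith
  have hcont : Continuous (gauge T) := by
    rw [continuous_iff_lower_upperSemicontinuous]
    constructor
    · rw [lowerSemicontinuous_iff_isClosed_preimage]
      intro r
      rcases lt_trichotomy r 0 with hr | hr | hr
      · have : gauge T ⁻¹' Iic r = ∅ := by
          ext x
          simp only [mem_preimage, mem_Iic, mem_empty_iff_false, iff_false, not_le]
          exact lt_of_lt_of_le hr (gauge_nonneg x)
        rw [this]
        exact isClosed_empty
      · have : gauge T ⁻¹' Iic r = {0} := by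
          ext x
          simp only [mem_preimage, mem_Iic, mem_singleton_iff, hr]
          constructor
          · intro h
            by_contra hx
            have := (gauge_pos habs ((NormedSpace.isVonNBounded_iff ℝ).2 hTb)).2 hx
            linarith
          · rintro rfl
            rw [gauge_zero]
        rw [this]
        exact isClosed_singleton
      · have : gauge T ⁻¹' Iic r = (fun x : E3 => r⁻¹ • x) ⁻¹' T := by
          ext x
          simp only [mem_preimage, mem_Iic]
          nth_rewrite 2 [hle]
          change _ ↔ gauge T (r⁻¹ • x) ≤ 1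
          rw [hhom _ _ (by positivity), inv_mul_eq_div, div_le_one hr]
        rw [this]
        exact hTc.preimage (by fun_prop)
    · rw [upperSemicontinuous_iff_isOpen_preimage]
      intro r
      rcases le_or_gt r 0 with hr | hr
      · have : gauge T ⁻¹' Iio r = ∅ := by
          ext x
          simp only [mem_preimage, mem_Iio, mem_empty_iff_false, iff_false, not_lt]
          exact hr.trans (gauge_nonneg x)
        rw [this]
        exact isOpen_empty
      · have : gauge T ⁻¹' Iio r = (fun x : E3 => r⁻¹ • x) ⁻¹' (interior T) := by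
          ext x
          simp only [mem_preimage, mem_Iio]
          rw [hlt]
          change _ ↔ gauge T (r⁻¹ • x) < 1
          rw [hhom _ _ (by positivity), inv_mul_eq_div, div_lt_one hr]
        rw [this]
        exact isOpen_interior.preimage (by fun_prop)
  refine ⟨gauge T, ⟨hcont, hhom, fun x hx => ?_⟩, hlt, hle⟩
  exact (gauge_pos habs ((NormedSpace.isVonNBounded_iff ℝ).2 hTb)).2 hx

end Pool.Agent.TH331.Cav
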