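import Pool.Agent.TH331.Cav.C7
import Pool.Agent.TH331.Cav.C8

set_option autoImplicit false
open MeasureTheory Set Filter Topology
open scoped ENNReal Pointwise

namespace Pool.Agent.TH331.Cav

/-- the open cube -/
def Qc : Set E3 := {x | ∀ i, |x i| < 1}

/-- basis vectors -/
noncomputable def ee (i : Fin 3) : E3 := EuclideanSpace.single i 1

/-- change one coordinate -/
noncomputable def up (x : E3) (i : Fin 3) (t : ℝ) : E3 := x + (t - x i) • ee i

theorem up_self (x : E3) (i : Fin 3) (t : ℝ) : (up x i t) i = t := by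
  simp [up, ee]

theorem up_ne (x : E3) {i j : Fin 3} (t : ℝ) (h : j ≠ i) : (up x i t) j = x j := by
  simp [up, ee, h]

theorem ee_inner (i : Fin 3) (x : E3) : inner ℝ (ee i) x = x i := by
  unfold ee
  rw [EuclideanSpace.inner_single_left]
  simp

theorem ee_norm (i : Fin 3) : ‖ee i‖ = 1 := by simp [ee]

theorem Obs.coord {c : ℝ} {η : E3 → ℝ} (h : Obs c Qc η) (x : E3) (i : Fin 3) {t : ℝ}
    (ht : |t| ≤ |x i|) : V η x ≤ V η (up x i t) := by
  by_cases hxt : x i = t
  · have : up x i t = x := by
      unfold up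
      rw [hxt, sub_self, zero_smul, add_zero]
    rw [this]
  have hd : x i - t ≠ 0 := sub_ne_zero.2 hxt
  have hsq : t ^ 2 ≤ (x i) ^ 2 := sq_le_sq.2 ht
  have hv : (x i - t) • ee i ≠ 0 := by
    rw [← norm_ne_zero_iff, norm_smul, ee_norm, mul_one]
    exact norm_ne_zero_iff.2 hd
  have hn : ‖(x i - t) • ee i‖ ^ 2 = (x i - t) ^ 2 := by
    rw [norm_smul, ee_norm, mul_one, Real.norm_eq_abs, sq_abs]
  have hin : ∀ y : E3, inner ℝ ((x i - t) • ee i) y = (x i - t) * y i := by
    intro y
    rw [real_inner_smul_left, ee_inner]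
  have hrf : ∀ y : E3, rf ((x i - t) • ee i) ((x i ^ 2 - t ^ 2) / 2) y = up y i (x i + t - y i) := by
    intro y
    unfold rf up
    rw [hin, hn, smul_smul, sub_eq_add_neg, ← neg_smul]
    congr 2
    field_simp
    ring
  have := h.refl hv ((x i ^ 2 - t ^ 2) / 2) (by
    intro y hy hlt
    rw [hrf]
    rw [hin] at hlt
    intro k
    by_cases hk : k = i
    · rw [hk, up_self]
      have hyi := abs_lt.1 (hy i)
      have h1 : 0 < (x i - t) * (y i - (x i + t) / 2) := by nlinarith
      have h2 : 0 ≤ (x i - t) * ((x i + t) / 2) := by nlinarith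
      rcases lt_or_gt_of_ne hd with hneg | hpos
      · have h3 : y i - (x i + t) / 2 < 0 := by
          by_contra hh
          push Not at hh
          nlinarith
        have h4 : (x i + t) / 2 ≤ 0 := by
          by_contra hh
          push Not at hh
          nlinarith
        rw [abs_lt]
        constructor <;> linarith [hyi.1, hyi.2]
      · have h3 : 0 < y i - (x i + t) / 2 := by
          by_contra hh
          push Not at hh
          nlinarith
        have h4 : 0 ≤ (x i + t) / 2 := by
          by_contra hh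
          push Not at hh
          nlinarith
        rw [abs_lt]
        constructor <;> linarith [hyi.1, hyi.2]
    · rw [up_ne _ _ hk]
      exact hy k) (x := x) (by
    rw [hin]
    have : 0 < (x i - t) ^ 2 := by positivity
    nlinarith)
  rw [hrf, show x i + t - x i = t by ring] at this
  exact this

theorem up3 (x y : E3) : up (up (up x 0 (y 0)) 1 (y 1)) 2 (y 2) = y := by
  ext k
  fin_cases k
  · change (up (up (up x 0 (y 0)) 1 (y 1)) 2 (y 2)) 0 = y 0
    rw [up_ne _ _ (by decide), up_ne _ _ (by decide), up_self]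
  · change (up (up (up x 0 (y 0)) 1 (y 1)) 2 (y 2)) 1 = y 1
    rw [up_ne _ _ (by decide), up_self]
  · change (up (up (up x 0 (y 0)) 1 (y 1)) 2 (y 2)) 2 = y 2
    rw [up_self]

theorem Obs.mono {c : ℝ} {η : E3 → ℝ} (h : Obs c Qc η) {x y : E3} (hxy : ∀ k, |y k| ≤ |x k|) :
    V η x ≤ V η y := by
  have h0 := h.coord x 0 (hxy 0)
  have h1 := h.coord (up x 0 (y 0)) 1 (t := y 1) (by
    rw [up_ne _ _ (by decide)]; exact hxy 1)
  have h2 := h.coord (up (up x 0 (y 0)) 1 (y 1)) 2 (t := y 2) (by
    rw [up_ne _ _ (by decide), up_ne _ _ (by decide)]; exact hxy 2)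
  rw [up3] at h2
  linarith

theorem Obs.mix {c : ℝ} {η : E3 → ℝ} (h : Obs c Qc η) (x : E3) {i j : Fin 3} (hij : i ≠ j) {s : ℝ}
    (hs : 0 < s) (hs2 : s ≤ x i - x j) : V η x ≤ V η (up (up x i (x i - s)) j (x j + s)) := by
  have hn : ‖ee i - ee j‖ ^ 2 = 2 := by
    rw [norm_sub_sq_real, ee_norm, ee_norm, ee_inner]
    have : (ee j) i = 0 := by
      unfold ee
      simp [hij]
    rw [this]
    norm_num
  have hv : ee i - ee j ≠ 0 := by
    intro h0
    rw [h0] at hn
    simp at hn
  have hin : ∀ y : E3, inner ℝ (ee i - ee j) y = y i - y j := by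
    intro y
    rw [inner_sub_left, ee_inner, ee_inner]
  obtain ⟨τ, hτ⟩ : ∃ τ : ℝ, τ = x i - x j - s := ⟨_, rfl⟩
  have hrf : ∀ y : E3, rf (ee i - ee j) τ y = up (up y i (y j + τ)) j (y i - τ) := by
    intro y
    unfold rf up
    rw [hin, hn]
    have : (y + (y j + τ - y i) • ee i) j = y j := by
      simp [ee, hij.symm]
    rw [this]
    module
  have := h.refl hv τ (by
    intro y hy hlt
    rw [hrf]
    rw [hin] at hlt
    have hyi := abs_lt.1 (hy i)
    have hyj := abs_lt.1 (hy j)
    intro k
    by_cases hkj : k = j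
    · rw [hkj, up_self, abs_lt]
      constructor <;> linarith [hyi.1, hyi.2, hyj.1, hyj.2]
    · rw [up_ne _ _ hkj]
      by_cases hki : k = i
      · rw [hki, up_self, abs_lt]
        constructor <;> linarith [hyi.1, hyi.2, hyj.1, hyj.2]
      · rw [up_ne _ _ hki]
        exact hy k) (x := x) (by
    rw [hin]
    linarith)
  rw [hrf, show x j + τ = x i - s by rw [hτ]; ring, show x i - τ = x j + s by rw [hτ]; ring] at this
  exact this

end Pool.Agent.TH331.Cav
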